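import Mathlib

/-! The determinant method modulo a composite number. -/

namespace Pool.Agent.Lib.MP_f03f34_nt

open Finset MvPolynomial

section ring
variable {W : Type} {m : ℕ} (Q : ℤ) (t : W → Fin m → ℤ)

/-- functions that agree with a polynomial in `t` modulo every power of `Q` -/
def Rp : Subring (W → ℤ) where
  carrier := {f | ∀ N : ℕ, ∃ ψ : MvPolynomial (Fin m) ℤ, ∀ ξ, Q ^ N ∣ f ξ - eval (t ξ) ψ}
  mul_mem' := fun {f g} hf hg N => by
    obtain ⟨a, ha⟩ := hf N
    obtain ⟨b, hb⟩ := hg N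
    refine ⟨a * b, fun ξ => ?_⟩
    have : (f * g) ξ - eval (t ξ) (a * b) =
        (f ξ - eval (t ξ) a) * g ξ + eval (t ξ) a * (g ξ - eval (t ξ) b) := by
      simp only [Pi.mul_apply, map_mul]; ring
    rw [this]
    exact dvd_add ((ha ξ).mul_right _) ((hb ξ).mul_left _)
  one_mem' := fun N => ⟨1, fun ξ => by simp⟩
  add_mem' := fun {f g} hf hg N => by
    obtain ⟨a, ha⟩ := hf N
    obtain ⟨b, hb⟩ := hg N
    refine ⟨a + b, fun ξ => ?_⟩
    have : (f + g) ξ - eval (t ξ) (a + b) = (f ξ - eval (t ξ) a) + (g ξ - eval (t ξ) b) := by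
      simp only [Pi.add_apply, map_add]; ring
    rw [this]
    exact dvd_add (ha ξ) (hb ξ)
  zero_mem' := fun N => ⟨0, fun ξ => by simp⟩
  neg_mem' := fun {f} hf N => by
    obtain ⟨a, ha⟩ := hf N
    refine ⟨-a, fun ξ => ?_⟩
    have : (-f) ξ - eval (t ξ) (-a) = -(f ξ - eval (t ξ) a) := by
      simp only [Pi.neg_apply, map_neg]; ring
    rw [this]
    exact (ha ξ).neg_right

variable {Q t}

lemma const_mem (c : ℤ) : (fun _ => c) ∈ Rp Q t := fun _ => ⟨C c, fun ξ => by simp⟩

lemma par_mem (i : Fin m) (c : ℤ) {f : W → ℤ} (h : ∀ ξ, f ξ = t ξ i + c) : f ∈ Rp Q t :=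
  fun _ => ⟨X i + C c, fun ξ => by simp [h]⟩

lemma lim_mem {f : W → ℤ} (h : ∀ N : ℕ, ∃ g ∈ Rp Q t, ∀ ξ, Q ^ N ∣ g ξ - f ξ) : f ∈ Rp Q t :=
  fun N => by
    obtain ⟨g, hg, h1⟩ := h N
    obtain ⟨ψ, h2⟩ := hg N
    refine ⟨ψ, fun ξ => ?_⟩
    have : f ξ - eval (t ξ) ψ = (g ξ - eval (t ξ) ψ) - (g ξ - f ξ) := by ring
    rw [this]
    exact dvd_sub (h2 ξ) (h1 ξ)

lemma eval_mem {σ : Type} {η : W → σ → ℤ} (h : ∀ i, (fun ξ => η ξ i) ∈ Rp Q t)
    (g : MvPolynomial σ ℤ) : (fun ξ => eval (η ξ) g) ∈ Rp Q t := by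
  induction g using MvPolynomial.induction_on with
  | C a => simpa using const_mem a
  | add p q hp hq => simp only [map_add]; exact add_mem hp hq
  | mul_X p i hp => simp only [map_mul, eval_X]; exact mul_mem hp (h i)

lemma dvd_eval_sub {σ : Type} {x y : σ → ℤ} (h : ∀ i, Q ∣ x i - y i) (g : MvPolynomial σ ℤ) :
    Q ∣ eval x g - eval y g := by
  induction g using MvPolynomial.induction_on with
  | C a => simp
  | add p q hp hq =>
    have : eval x (p + q) - eval y (p + q) = (eval x p - eval y p) + (eval x q - eval y q) := by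
      simp only [map_add]; ring
    rw [this]; exact dvd_add hp hq
  | mul_X p i hp =>
    have : eval x (p * X i) - eval y (p * X i) =
        (eval x p - eval y p) * x i + eval y p * (x i - y i) := by
      simp only [map_mul, eval_X]; ring
    rw [this]; exact dvd_add (hp.mul_right _) ((h i).mul_left _)

lemma taylor {σ : Type} [DecidableEq σ] (x : σ → ℤ) (i : σ) (y : ℤ) (g : MvPolynomial σ ℤ) :
    y ^ 2 ∣ eval (Function.update x i (x i + y)) g - eval x g - y * eval x (pderiv i g) := by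
  induction g using MvPolynomial.induction_on with
  | C a => simp
  | add p q hp hq =>
    obtain ⟨a, ha⟩ := hp
    obtain ⟨b, hb⟩ := hq
    exact ⟨a + b, by simp only [map_add]; linear_combination ha + hb⟩
  | mul_X p j hp =>
    obtain ⟨a, ha⟩ := hp
    by_cases h : j = i
    · subst h
      refine ⟨a * (x j + y) + eval x (pderiv j p), ?_⟩
      simp only [map_mul, eval_X, Derivation.leibniz, pderiv_X_self, smul_eq_mul, map_add, mul_one,
        Function.update_self]
      linear_combination (x j + y) * ha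
    · refine ⟨a * x j, ?_⟩
      simp only [map_mul, eval_X, Derivation.leibniz, pderiv_X_of_ne h, smul_eq_mul, map_add,
        mul_zero, map_zero, Function.update_of_ne h]
      linear_combination (x j) * ha

lemma newton {σ : Type} [DecidableEq σ] {η : W → σ → ℤ} {g : MvPolynomial σ ℤ} {i : σ}
    {x₀ : σ → ℤ} (hg : ∀ ξ, eval (η ξ) g = 0) (hx : ∀ ξ j, Q ∣ η ξ j - x₀ j)
    (hc : IsCoprime (eval x₀ (pderiv i g)) Q) (h : ∀ j, j ≠ i → (fun ξ => η ξ j) ∈ Rp Q t) :
    (fun ξ => η ξ i) ∈ Rp Q t := by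
  obtain ⟨a, b, hab⟩ := hc
  have key : ∀ k : ℕ, ∃ u ∈ Rp Q t, ∀ ξ, Q ^ (k + 1) ∣ u ξ - η ξ i := by
    intro k
    induction k with
    | zero => exact ⟨_, const_mem (x₀ i), fun ξ => by simpa using dvd_sub_comm.1 (hx ξ i)⟩
    | succ k ih =>
      obtain ⟨u, hu, hk⟩ := ih
      have hm : (fun ξ => eval (Function.update (η ξ) i (u ξ)) g) ∈ Rp Q t :=
        eval_mem (η := fun ξ => Function.update (η ξ) i (u ξ)) (fun j => by
          by_cases e : j = i
          · subst e; simpa using hu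
          · simpa [Function.update_of_ne e] using h j e) g
      refine ⟨_, sub_mem hu (mul_mem (const_mem a) hm), fun ξ => ?_⟩
      obtain ⟨c, hc⟩ := hk ξ
      obtain ⟨d, hd⟩ := taylor (η ξ) i (u ξ - η ξ i) g
      obtain ⟨e, he⟩ := dvd_eval_sub (hx ξ) (pderiv i g)
      rw [add_sub_cancel, hg, hc] at hd
      refine ⟨c * (b - a * e) - a * d * c ^ 2 * Q ^ k, ?_⟩
      simp only [Pi.sub_apply, Pi.mul_apply]
      have e1 : eval (η ξ) (pderiv i g) = eval x₀ (pderiv i g) + Q * e := by linear_combination he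
      rw [e1] at hd
      linear_combination hc - a * hd - Q ^ (k + 1) * c * hab
  refine lim_mem fun N => ?_
  obtain ⟨u, hu, hk⟩ := key N
  exact ⟨u, hu, fun ξ => (pow_dvd_pow Q N.le_succ).trans (hk ξ)⟩

lemma dvd_det {ι : Type} [Fintype ι] [DecidableEq ι] (ht : ∀ ξ i, Q ∣ t ξ i) {f : ι → W → ℤ}
    (hf : ∀ j, f j ∈ Rp Q t) {N : ℕ}
    (hN : ∀ p : ι → (Fin m →₀ ℕ), Function.Injective p → N ≤ ∑ j, ∑ l, p j l) (pts : ι → W) :
    Q ^ N ∣ (Matrix.of fun j i => f j (pts i)).det := by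
  choose ψ hψ using fun j => hf j N
  choose s hs using ht
  have h1 : Q ^ N ∣ (Matrix.of fun j i => eval (t (pts i)) (ψ j)).det := by
    have e : (Matrix.of fun j i => eval (t (pts i)) (ψ j)).det =
        (Matrix.detRowAlternating (R := ℤ) (n := ι)).toMultilinearMap fun j =>
          ∑ α ∈ (ψ j).support, coeff α (ψ j) • fun i => ∏ l, t (pts i) l ^ α l := by
      refine congrArg (Matrix.detRowAlternating (R := ℤ) (n := ι)) ?_
      ext j i
      simp [eval_eq']
    rw [e, MultilinearMap.map_sum_finset]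
    refine dvd_sum fun p _ => ?_
    rw [MultilinearMap.map_smul_univ]
    refine Dvd.dvd.mul_left ?_ _
    by_cases hp : Function.Injective p
    · have e2 : (fun j => fun i => ∏ l, t (pts i) l ^ p j l) =
          fun j => (Q ^ ∑ l, p j l) • fun i => ∏ l, s (pts i) l ^ p j l := by
        ext j i
        simp [hs, mul_pow, prod_mul_distrib, prod_pow_eq_pow_sum]
      rw [e2, MultilinearMap.map_smul_univ, prod_pow_eq_pow_sum]
      exact (pow_dvd_pow Q (hN p hp)).mul_right _
    · have : (Matrix.detRowAlternating (R := ℤ) (n := ι))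
          (fun j => fun i => ∏ l, t (pts i) l ^ p j l) = 0 :=
        AlternatingMap.map_eq_zero_of_not_injective _ _ fun e => hp fun a b hab => e (by simp [hab])
      exact this ▸ dvd_zero _
  rw [← Ideal.mem_span_singleton, ← Ideal.Quotient.eq_zero_iff_mem, RingHom.map_det] at h1 ⊢
  rw [← h1]
  congr 1
  ext j i
  exact Ideal.Quotient.eq.2 (Ideal.mem_span_singleton.2 (hψ j (pts i)))

end ring

attribute [local instance] Matrix.seminormedAddCommGroup

/-- if all full determinants vanish there is a small integer relation -/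
lemma siegel {W ι : Type} [Fintype ι] [DecidableEq ι] [Nonempty ι] (f : ι → W → ℤ) {A : ℕ}
    (hA : 1 ≤ A) (hf : ∀ j ξ, |f j ξ| ≤ A)
    (hd : ∀ pts : ι → W, (Matrix.of fun j i => f j (pts i)).det = 0) :
    ∃ c : ι → ℤ, c ≠ 0 ∧ (∀ j, |c j| ≤ (Fintype.card ι * A : ℕ) ^ Fintype.card ι) ∧
      ∀ ξ, ∑ j, f j ξ * c j = 0 := by
  classical
  obtain ⟨κ, a, -, hs, hl⟩ := exists_linearIndependent' ℚ (fun (ξ : W) (j : ι) => (f j ξ : ℚ))
  have : Finite κ := hl.finite
  let _ : Fintype κ := Fintype.ofFinite κ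
  have h1 : Fintype.card κ ≤ Fintype.card ι := by simpa using hl.fintype_card_le_finrank
  have h2 : Fintype.card κ ≠ Fintype.card ι := fun e => by
    obtain ⟨ε⟩ := Fintype.card_eq.1 e.symm
    have := Matrix.linearIndependent_rows_iff_isUnit.1
      (show LinearIndependent ℚ (Matrix.of fun i j => (f j (a (ε i)) : ℚ)).row from
        hl.comp ε ε.injective)
    rw [Matrix.isUnit_iff_isUnit_det, isUnit_iff_ne_zero] at this
    apply this
    have e := congrArg (Int.castRingHom ℚ) (hd fun i => a (ε i))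
    rw [RingHom.map_det, map_zero, ← Matrix.det_transpose] at e
    exact e
  have s1 : 1 ≤ Fintype.card ι * A := Nat.mul_pos Fintype.card_pos hA
  obtain ⟨c, c0, c1, c2⟩ : ∃ c : ι → ℤ, c ≠ 0 ∧
      (∀ j, |c j| ≤ (Fintype.card ι * A : ℕ) ^ Fintype.card ι) ∧ ∀ k, ∑ j, f j (a k) * c j = 0 := by
    rcases Nat.eq_zero_or_pos (Fintype.card κ) with h0 | h0
    · have := Fintype.card_eq_zero_iff.1 h0
      refine ⟨1, one_ne_zero, fun j => ?_, fun k => isEmptyElim k⟩
      simpa using (by exact_mod_cast Nat.one_le_pow _ _ s1 :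
        (1 : ℤ) ≤ ((Fintype.card ι * A : ℕ) : ℤ) ^ Fintype.card ι)
    · have h3 := lt_of_le_of_ne h1 h2
      obtain ⟨c, c0, c1, c2⟩ := Int.Matrix.exists_ne_zero_int_vec_norm_le
        (Matrix.of fun k j => f j (a k)) h3 h0
      refine ⟨c, c0, fun j => ?_, fun k => congrFun c1 k⟩
      have n1 : ‖(Matrix.of fun k j => f j (a k))‖ ≤ A :=
        (Matrix.norm_le_iff (by positivity)).2 fun k j => by
          rw [Int.norm_eq_abs]; exact_mod_cast hf j (a k)
      have A1 : (1 : ℝ) ≤ A := by exact_mod_cast hA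
      have s2 : (1 : ℝ) ≤ Fintype.card ι * A := by exact_mod_cast s1
      have n2 : (Fintype.card κ : ℝ) + 1 ≤ Fintype.card ι := by exact_mod_cast h3
      have n3 : ‖c‖ ≤ ((Fintype.card ι : ℝ) * A) ^ Fintype.card ι := by
        refine c2.trans ((Real.rpow_le_rpow (by positivity)
          (mul_le_mul_of_nonneg_left (max_le A1 n1) (by positivity))
          (div_nonneg (by positivity) (by linarith))).trans ?_)
        rw [← Real.rpow_natCast]
        exact Real.rpow_le_rpow_of_exponent_le s2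
          ((div_le_self (by positivity) (by linarith)).trans (by linarith))
      have n4 := (norm_le_pi_norm c j).trans n3
      rw [Int.norm_eq_abs] at n4
      exact_mod_cast n4
  refine ⟨c, c0, c1, fun ξ => ?_⟩
  have hm : (fun j => (f j ξ : ℚ)) ∈ Submodule.span ℚ
      (Set.range ((fun (ξ : W) (j : ι) => (f j ξ : ℚ)) ∘ a)) :=
    hs ▸ Submodule.subset_span ⟨ξ, rfl⟩
  have : ∀ v ∈ Submodule.span ℚ (Set.range ((fun (ξ : W) (j : ι) => (f j ξ : ℚ)) ∘ a)),
      ∑ j, v j * c j = 0 := fun v hv => by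
    induction hv using Submodule.span_induction with
    | mem v hv => obtain ⟨k, rfl⟩ := hv; simp only [Function.comp]; exact_mod_cast c2 k
    | zero => simp
    | add u v _ _ hu hv => simp [add_mul, sum_add_distrib, hu, hv]
    | smul r v _ hv => simp [mul_assoc, ← mul_sum, hv]
  exact_mod_cast this _ hm

lemma sum_tuple (m N : ℕ) : ∀ κ, κ ≤ N → ∑ α ∈ Fintype.piFinset (fun _ : Fin m => range N),
    (κ - ∑ l, α l) = (κ + m).choose (m + 1) := by
  induction m with
  | zero => intro κ _; simp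
  | succ m ih =>
    intro κ hκ
    have e : ∑ α ∈ Fintype.piFinset (fun _ : Fin (m + 1) => range N), (κ - ∑ l, α l) =
        ∑ a ∈ range N, ∑ α ∈ Fintype.piFinset (fun _ : Fin m => range N), (κ - a - ∑ l, α l) := by
      rw [← sum_product']
      symm
      refine sum_nbij' (fun p => Fin.cons p.1 p.2) (fun α => (α 0, Fin.tail α)) ?_ ?_ ?_ ?_ ?_
      · intro p hp
        simp only [mem_product, Fintype.mem_piFinset] at hp ⊢
        exact fun i => Fin.cases hp.1 hp.2 i
      · intro α hα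
        simp only [mem_product, Fintype.mem_piFinset] at hα ⊢
        exact ⟨hα 0, fun i => hα _⟩
      · intro p _; simp
      · intro α _; simp
      · intro p _; simp [Fin.sum_univ_succ, Nat.sub_sub]
    rw [e, sum_congr rfl fun a _ => ih (κ - a) (by omega)]
    have h2 : ∀ κ, ∑ a ∈ range κ, (κ - a + m).choose (m + 1) = (κ + (m + 1)).choose (m + 1 + 1) := by
      intro κ
      induction κ with
      | zero => simp
      | succ κ ih =>
        rw [sum_range_succ', show κ + 1 + (m + 1) = (κ + (m + 1)) + 1 by ring, Nat.choose_succ_succ',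
          ← ih, add_comm]
        congr 1
        · congr 1; omega
        · exact sum_congr rfl fun a _ => by congr 1; omega
    rw [← h2]
    symm
    refine sum_subset (range_subset_range.2 hκ) fun a _ ha => ?_
    rw [mem_range, not_lt] at ha
    simp [Nat.sub_eq_zero_of_le ha]

lemma le_sum_deg {ι : Type} [Fintype ι] {m : ℕ} (κ : ℕ) (p : ι → (Fin m →₀ ℕ))
    (hp : Function.Injective p) :
    κ * Fintype.card ι - (κ + m).choose (m + 1) ≤ ∑ j, ∑ l, p j l := by
  classical
  have h1 : ∑ j, (κ - ∑ l, p j l) ≤ (κ + m).choose (m + 1) := by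
    rw [← sum_tuple m κ κ le_rfl, ← sum_filter_ne_zero,
      ← sum_image (f := fun α : Fin m → ℕ => κ - ∑ l, α l) (g := fun j => ⇑(p j))
        fun a _ b _ e => hp (DFunLike.coe_injective e)]
    refine sum_le_sum_of_subset fun α hα => ?_
    obtain ⟨j, hj, rfl⟩ := mem_image.1 hα
    have := (mem_filter.1 hj).2
    refine Fintype.mem_piFinset.2 fun l => mem_range.2 ?_
    have := single_le_sum (f := fun l => p j l) (fun _ _ => Nat.zero_le _) (mem_univ l)
    omega
  have h2 : ∑ _j : ι, κ ≤ ∑ j, ((κ - ∑ l, p j l) + ∑ l, p j l) := sum_le_sum fun j _ => by omega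
  rw [sum_add_distrib, sum_const, card_univ, smul_eq_mul, mul_comm] at h2
  omega

/-- the determinant method -/
theorem detm {W ι : Type} [Fintype ι] [Nonempty ι] {m : ℕ} {Q : ℤ} {t : W → Fin m → ℤ}
    (ht : ∀ ξ i, Q ∣ t ξ i) {f : ι → W → ℤ} (hf : ∀ j, f j ∈ Rp Q t) {B : ℕ} (hB : 1 ≤ B)
    {d : ι → ℕ} (hd : ∀ j ξ, |f j ξ| ≤ (B : ℤ) ^ d j) (κ : ℕ)
    (hQ : ((Fintype.card ι).factorial : ℤ) * B ^ ∑ j, d j <
      Q ^ (κ * Fintype.card ι - (κ + m).choose (m + 1))) :
    ∃ c : ι → ℤ, c ≠ 0 ∧ ∀ ξ, ∑ j, f j ξ * c j = 0 := by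
  classical
  obtain ⟨c, c0, -, c2⟩ := siegel f (A := B ^ ∑ j, d j) (Nat.one_le_pow _ _ hB) (fun j ξ =>
    (hd j ξ).trans (by
      push_cast
      exact pow_le_pow_right₀ (by exact_mod_cast hB)
        (single_le_sum (f := d) (fun _ _ => Nat.zero_le _) (mem_univ j)))) fun pts => by
      refine Int.eq_zero_of_abs_lt_dvd (dvd_det ht hf (le_sum_deg κ) pts) (lt_of_le_of_lt ?_ hQ)
      rw [← Matrix.det_transpose, Matrix.det_apply']
      refine (abs_sum_le_sum_abs _ _).trans ((sum_le_card_nsmul _ _ ((B : ℤ) ^ ∑ j, d j)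
        fun σ _ => ?_).trans (by simp [Fintype.card_perm]))
      rw [abs_mul, abs_prod, ← prod_pow_eq_pow_sum]
      have : |((Equiv.Perm.sign σ : ℤˣ) : ℤ)| = 1 := Int.isUnit_iff_abs_eq.1 (Units.isUnit _)
      simp only [Int.cast_id, this, one_mul]
      exact prod_le_prod (fun _ _ => abs_nonneg _) fun j _ => hd j _
  exact ⟨c, c0, c2⟩

end Pool.Agent.Lib.MP_f03f34_nt
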