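import Pool.Agent.Lib.MP_f03f34_nt.Det

/-! Polynomials in three variables: factors, elimination, heights. -/

namespace Pool.Agent.Lib.MP_f03f34_nt

open Finset MvPolynomial UniqueFactorizationMonoid

abbrev P := MvPolynomial (Fin 3) ℚ

lemma eval_congr_supp {R : Type} [CommRing R] {f : MvPolynomial (Fin 3) R} {p q : Fin 3 → R}
    (h : ∀ j, degreeOf j f ≠ 0 → p j = q j) : eval p f = eval q f := by
  rw [eval_eq', eval_eq']
  refine sum_congr rfl fun α hα => congrArg _ (prod_congr rfl fun j _ => ?_)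
  by_cases e : α j = 0
  · simp [e]
  · rw [h j fun e0 => e (Nat.le_zero.1 (degreeOf_le_iff.1 e0.le α hα))]

lemma degreeOf_le_of_dvd {f g : P} (h : g ∣ f) (hf : f ≠ 0) (i : Fin 3) :
    degreeOf i g ≤ degreeOf i f := by
  obtain ⟨r, rfl⟩ := h
  rw [degreeOf_mul_eq (left_ne_zero_of_mul hf) (right_ne_zero_of_mul hf)]
  omega

lemma mem_supp_pderiv {f : P} {j : Fin 3} {α : Fin 3 →₀ ℕ} (h : α ∈ (pderiv j f).support) :
    α + Finsupp.single j 1 ∈ f.support := by
  rw [mem_support_iff] at h ⊢
  rw [coeff_pderiv] at h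
  exact left_ne_zero_of_mul h

lemma degreeOf_pderiv_le (f : P) (i j : Fin 3) : degreeOf i (pderiv j f) ≤ degreeOf i f :=
  degreeOf_le_iff.2 fun α hα =>
    le_trans (by simp) (degreeOf_le_iff.1 le_rfl _ (mem_supp_pderiv hα))

lemma sum_le_deg {R : Type} [CommRing R] {f : MvPolynomial (Fin 3) R} {α : Fin 3 →₀ ℕ}
    (h : α ∈ f.support) : ∑ j, α j ≤ f.totalDegree := by
  have := le_totalDegree h
  rwa [Finsupp.sum_fintype _ _ (by simp)] at this

lemma deg_le_of_supp {R : Type} [CommRing R] {f : MvPolynomial (Fin 3) R} {D : ℕ}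
    (h : ∀ α ∈ f.support, ∑ j, α j ≤ D) : f.totalDegree ≤ D :=
  Finset.sup_le fun α hα => by rw [Finsupp.sum_fintype _ _ (by simp)]; exact h α hα

lemma deg_pderiv_le (f : P) (j : Fin 3) : (pderiv j f).totalDegree ≤ f.totalDegree :=
  deg_le_of_supp fun α hα => le_trans (sum_le_sum fun _ _ => by simp) (sum_le_deg (mem_supp_pderiv hα))

lemma deg_pos {H : P} (hH : Irreducible H) : 1 ≤ H.totalDegree := by
  by_contra h
  have e := totalDegree_eq_zero_iff_eq_C.1 (show H.totalDegree = 0 by omega)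
  by_cases h0 : coeff 0 H = 0
  · exact hH.ne_zero (by rw [e, h0, map_zero])
  · exact hH.not_isUnit (e ▸ (Ne.isUnit h0).map C)

lemma exists_pderiv {H : P} (hH : Irreducible H) : ∃ j, ¬ H ∣ pderiv j H := by
  obtain ⟨α, hα, j, hj⟩ : ∃ α ∈ H.support, ∃ j, α j ≠ 0 := by
    by_contra h
    push Not at h
    have := deg_pos hH
    have := deg_le_of_supp (f := H) (D := 0) fun α hα => by simp [h α hα]
    omega
  refine ⟨j, fun hd => ?_⟩
  have e : α - Finsupp.single j 1 + Finsupp.single j 1 = α :=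
    tsub_add_cancel_of_le (Finsupp.single_le_iff.2 (by omega))
  have h0 : pderiv j H ≠ 0 := fun h0 => by
    have := coeff_pderiv (i := j) H (α - Finsupp.single j 1)
    rw [h0, e, coeff_zero] at this
    exact mul_ne_zero (mem_support_iff.1 hα) (by positivity) this.symm
  have h1 := degreeOf_le_of_dvd hd h0 j
  have h2 : degreeOf j (pderiv j H) ≤ degreeOf j H - 1 := degreeOf_le_iff.2 fun β hβ => by
    have := degreeOf_le_iff.1 (le_refl (degreeOf j H)) _ (mem_supp_pderiv hβ)
    simp at this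
    omega
  have := degreeOf_le_iff.1 (le_refl (degreeOf j H)) _ hα
  omega

lemma card_factors_le {f : P} (hf : f ≠ 0) : (factors f).card ≤ f.totalDegree := by
  have h : ∀ s : Multiset P, (∀ g ∈ s, Irreducible g) → s.card ≤ s.prod.totalDegree := by
    intro s
    induction s using Multiset.induction_on with
    | empty => simp
    | cons a s ih =>
      intro h
      have h1 := h a (Multiset.mem_cons_self _ _)
      have h2 : ∀ g ∈ s, Irreducible g := fun g hg => h g (Multiset.mem_cons_of_mem hg)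
      rw [Multiset.prod_cons, Multiset.card_cons, totalDegree_mul_of_isDomain h1.ne_zero
        (Multiset.prod_ne_zero fun e => (h2 0 e).ne_zero rfl)]
      have := deg_pos h1
      have := ih h2
      omega
  exact (h _ irreducible_of_factor).trans
    (totalDegree_le_of_dvd_of_isDomain (factors_prod hf).dvd hf)

lemma exists_factor {f : P} (hf : f ≠ 0) {p : Fin 3 → ℚ} (h : eval p f = 0) :
    ∃ g ∈ factors f, eval p g = 0 := by
  obtain ⟨u, hu⟩ := factors_prod hf
  rw [← hu, map_mul, mul_eq_zero, map_multiset_prod, Multiset.prod_eq_zero_iff] at h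
  rcases h with h | h
  · obtain ⟨g, hg, e⟩ := Multiset.mem_map.1 h
    exact ⟨g, hg, e⟩
  · exact absurd h (u.isUnit.map (eval p)).ne_zero

/-- polynomial with prescribed coefficients -/
noncomputable def pol {R ι : Type} [CommRing R] [Fintype ι] (α : ι → (Fin 3 →₀ ℕ)) (c : ι → R) :
    MvPolynomial (Fin 3) R := ∑ s, monomial (α s) (c s)

section pol
variable {R ι : Type} [CommRing R] [Fintype ι] {α : ι → (Fin 3 →₀ ℕ)} {c : ι → R}

lemma supp_pol {β : Fin 3 →₀ ℕ} (h : β ∈ (pol α c).support) : ∃ s, α s = β ∧ c s ≠ 0 := by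
  by_contra hn
  push Not at hn
  refine mem_support_iff.1 h ?_
  rw [pol, coeff_sum]
  exact sum_eq_zero fun s _ => by
    rw [coeff_monomial]
    split_ifs with e
    exacts [hn s e, rfl]

lemma coeff_pol (s : ι) (h : ∀ s', α s' = α s → s' ≠ s → c s' = 0) :
    coeff (α s) (pol α c) = c s := by
  rw [pol, coeff_sum, sum_eq_single s]
  · simp
  · intro s' _ e
    rw [coeff_monomial]
    split_ifs with e'
    exacts [h s' e' e, rfl]
  · simp

lemma eval_pol (p : Fin 3 → R) : eval p (pol α c) = ∑ s, (∏ j, p j ^ α s j) * c s := by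
  rw [pol, map_sum]
  exact sum_congr rfl fun s _ => by
    rw [eval_monomial, Finsupp.prod_fintype _ _ (by simp), mul_comm]

end pol

/-- elimination of one variable -/
theorem elim {H R : P} {D : ℕ} (hH : Irreducible H) (hR : ¬ H ∣ R) (dH : H.totalDegree ≤ D)
    (dR : R.totalDegree ≤ D) (i : Fin 3) : ∃ E : P, E ≠ 0 ∧ degreeOf i E = 0 ∧
      E.totalDegree ≤ 15 * D ^ 2 ∧ ∀ p, eval p H = 0 → eval p R = 0 → eval p E = 0 := by
  classical
  have D1 := (deg_pos hH).trans dH
  have R0 : R ≠ 0 := fun e => hR (e ▸ dvd_zero _)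
  obtain ⟨a, ha⟩ : ∃ a, a = degreeOf i H := ⟨_, rfl⟩
  obtain ⟨b, hb⟩ : ∃ b, b = degreeOf i R := ⟨_, rfl⟩
  have bH : ∀ j, degreeOf j H ≤ D := fun j => (degreeOf_le_totalDegree _ _).trans dH
  have bR : ∀ j, degreeOf j R ≤ D := fun j => (degreeOf_le_totalDegree _ _).trans dR
  rcases Nat.eq_zero_or_pos a with a0 | a0
  · exact ⟨H, hH.ne_zero, ha ▸ a0, dH.trans (by nlinarith), fun _ h _ => h⟩
  obtain ⟨k, hk⟩ : ∃ k, k = 4 * D ^ 2 := ⟨_, rfl⟩
  let bx : Finset ℕ → ℕ → Finset (Fin 3 → ℕ) := fun s r =>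
    Fintype.piFinset fun j => if j = i then s else range r
  have cb : ∀ s r, (bx s r).card = s.card * r ^ 2 := fun s r => by
    simp only [bx, Fintype.card_piFinset]
    fin_cases i <;> simp [Fin.prod_univ_three] <;> ring
  let ε : (Fin 3 → ℕ) → (Fin 3 →₀ ℕ) := Finsupp.equivFunOnFinite.symm
  let g : bx (range b) k ⊕ bx (range a) k → P := fun s =>
    s.elim (fun s => monomial (ε s.1) 1 * H) fun s => monomial (ε s.1) 1 * R
  let M : Matrix (bx (Ico 1 (a + b)) (k + D)) (bx (range b) k ⊕ bx (range a) k) ℚ :=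
    fun τ s => coeff (ε τ) (g s)
  obtain ⟨v, hv, v0⟩ := (Submodule.ne_bot_iff _).1 (M.mulVecLin.ker_ne_bot_of_finrank_lt (by
    simp only [Module.finrank_fintype_fun_eq_card, Fintype.card_sum, Fintype.card_coe, cb,
      card_range, Nat.card_Ico]
    obtain ⟨N, hN⟩ : ∃ N, a + b = N + 1 := ⟨a + b - 1, by omega⟩
    have h2 : N + 1 ≤ 2 * D := by have := bH i; have := bR i; omega
    rw [← add_mul, add_comm b, hN, Nat.add_sub_cancel]
    have h3 : (N + 1) * (2 * k * D + D ^ 2) ≤ 2 * D * (2 * k * D + D ^ 2) :=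
      Nat.mul_le_mul_right _ h2
    have h4 : 0 < D ^ 2 := by positivity
    subst hk
    nlinarith [Nat.mul_pos h4 D1]))
  obtain ⟨A, hA⟩ : ∃ A, A = pol (fun s : bx (range b) k => ε s) fun s => v (.inl s) := ⟨_, rfl⟩
  obtain ⟨B, hB⟩ : ∃ B, B = pol (fun s : bx (range a) k => ε s) fun s => v (.inr s) := ⟨_, rfl⟩
  have dg : ∀ (c r : ℕ) (u : bx (range c) r → ℚ) (j : Fin 3),
      pol (fun s : bx (range c) r => ε s) u ≠ 0 →
      degreeOf j (pol (fun s : bx (range c) r => ε s) u) < if j = i then c else r := fun c r u j h0 => by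
    obtain ⟨β, hβ, e⟩ := exists_mem_eq_sup _ (support_nonempty.2 h0) fun β => β j
    obtain ⟨s, rfl, -⟩ := supp_pol hβ
    rw [degreeOf_eq_sup, e]
    have := Fintype.mem_piFinset.1 s.2 j
    split_ifs at this ⊢ <;> exact mem_range.1 this
  have dE : ∀ j, degreeOf j (A * H + B * R) < if j = i then a + b else k + D := fun j => by
    have k0 : 0 < k := by rw [hk]; positivity
    have h1 : degreeOf j (A * H) < if j = i then a + b else k + D := by
      by_cases e : A = 0
      · rw [e, zero_mul, degreeOf_zero]; split_ifs <;> omega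
      · have := dg _ _ _ j (hA ▸ e)
        have := degreeOf_mul_le j A H
        have := bH j
        subst hA
        split_ifs at * with e <;> [subst e; skip] <;> omega
    have h2 : degreeOf j (B * R) < if j = i then a + b else k + D := by
      by_cases e : B = 0
      · rw [e, zero_mul, degreeOf_zero]; split_ifs <;> omega
      · have := dg _ _ _ j (hB ▸ e)
        have := degreeOf_mul_le j B R
        have := bR j
        subst hB
        split_ifs at * with e <;> [subst e; skip] <;> omega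
    exact (degreeOf_add_le _ _ _).trans_lt (max_lt h1 h2)
  have eE : A * H + B * R = ∑ s, C (v s) * g s := by
    simp only [hA, hB, pol, sum_mul, Fintype.sum_sum_type, g, Sum.elim_inl, Sum.elim_inr,
      ← mul_assoc, C_mul_monomial, mul_one]
  have fr : degreeOf i (A * H + B * R) = 0 := Nat.le_zero.1 (degreeOf_le_iff.2 fun β hβ => by
    by_contra hb0
    have hm : ⇑β ∈ bx (Ico 1 (a + b)) (k + D) := Fintype.mem_piFinset.2 fun j => by
      have h1 := (degreeOf_le_iff.1 le_rfl β hβ).trans_lt (dE j)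
      split_ifs at h1 ⊢ with e
      · subst e; exact mem_Ico.2 ⟨by omega, h1⟩
      · exact mem_range.2 h1
    have := congrFun (LinearMap.mem_ker.1 hv) ⟨_, hm⟩
    refine mem_support_iff.1 hβ ?_
    rw [eE, coeff_sum]
    refine Eq.trans (sum_congr rfl fun s _ => ?_) (show ∑ s, coeff (ε ⇑β) (g s) * v s = 0 from this)
    simp [ε, mul_comm])
  refine ⟨A * H + B * R, fun e => v0 ?_, fr, deg_le_of_supp fun β hβ => ?_,
    fun p h1 h2 => by simp [h1, h2]⟩
  · have B0 : B = 0 := by
      by_contra B0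
      have h1 : H ∣ B * R := ⟨-A, by linear_combination e⟩
      have h2 := degreeOf_le_of_dvd ((hH.prime.dvd_or_dvd h1).resolve_right hR) B0 i
      have h3 := dg _ _ _ i (hB ▸ B0)
      rw [← hB, if_pos rfl] at h3
      omega
    have A0 : A = 0 := by
      rw [B0, zero_mul, add_zero] at e
      exact (mul_eq_zero.1 e).resolve_right hH.ne_zero
    have inj : ∀ (S : Finset (Fin 3 → ℕ)) (s s' : S), ε s' = ε s → s' = s := fun S s s' e =>
      Subtype.ext (Finsupp.equivFunOnFinite.symm.injective e)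
    funext s
    rcases s with s | s
    · have := coeff_pol (α := fun s : bx (range b) k => ε s) (c := fun s => v (.inl s)) s
        fun s' e e' => absurd (inj _ _ _ e) e'
      rw [← hA, A0] at this
      exact this.symm
    · have := coeff_pol (α := fun s : bx (range a) k => ε s) (c := fun s => v (.inr s)) s
        fun s' e e' => absurd (inj _ _ _ e) e'
      rw [← hB, B0] at this
      exact this.symm
  · refine (sum_le_card_nsmul _ _ (k + D) fun j _ => ?_).trans ?_
    · have h1 := (degreeOf_le_iff.1 le_rfl β hβ).trans_lt (dE j)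
      have h2 := degreeOf_le_iff.1 fr.le β hβ
      split_ifs at h1 with e
      · subst e; omega
      · omega
    · simp only [card_univ, Fintype.card_fin, smul_eq_mul, hk]
      nlinarith

lemma card_roots {E : P} (hE : E ≠ 0) (l : Fin 3) (S : Finset ℚ)
    (h : ∀ a ∈ S, ∀ p, eval (Function.update p l a) E = 0) : S.card ≤ E.totalDegree := by
  classical
  obtain ⟨p, hp⟩ : ∃ p, eval p E ≠ 0 := by
    by_contra hn
    push Not at hn
    exact hE (MvPolynomial.funext fun p => by simp [hn])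
  let g := aeval (fun j => if j = l then Polynomial.X else Polynomial.C (p j)) E
  have ev : ∀ a, g.eval a = eval (Function.update p l a) E := fun a => by
    rw [← Polynomial.coe_aeval_eq_eval, ← AlgHom.comp_apply, comp_aeval, aeval_eq_eval]
    congr 2
    funext j
    by_cases e : j = l <;> simp [e]
  have g0 : g ≠ 0 := fun e => hp (by simpa [e] using (ev (p l)).symm)
  have dg : g.natDegree ≤ E.totalDegree * 1 := aeval_natDegree_le _ le_rfl _ fun j => by
    split_ifs <;> simp
  exact (Polynomial.card_le_degree_of_subset_roots fun a ha =>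
    (Polynomial.mem_roots g0).2 (by rw [Polynomial.IsRoot, ev]; exact h a ha p)).trans
      (by omega)

lemma third : ∀ i l : Fin 3, l ≠ i → ∃ j : Fin 3, j ≠ i ∧ j ≠ l ∧ ∀ u, u ≠ i → u ≠ j → u = l := by
  decide

/-- two coprime polynomials free of `x i` leave few values for another coordinate -/
lemma card_coord {H R : P} {D : ℕ} (hH : Irreducible H) (hR : ¬ H ∣ R) (dH : H.totalDegree ≤ D)
    (dR : R.totalDegree ≤ D) {i l : Fin 3} (hl : l ≠ i) (fH : degreeOf i H = 0)
    (fR : degreeOf i R = 0) (S : Finset ℚ)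
    (h : ∀ a ∈ S, ∃ p, eval p H = 0 ∧ eval p R = 0 ∧ p l = a) : S.card ≤ 15 * D ^ 2 := by
  obtain ⟨j, j1, j2, j3⟩ := third i l hl
  obtain ⟨E, E0, E1, E2, E3⟩ := elim hH hR dH dR j
  refine (card_roots E0 l S fun a ha q => ?_).trans E2
  obtain ⟨p, p1, p2, rfl⟩ := h a ha
  have e : ∀ f : P, degreeOf i f = 0 → eval (Function.update p i (q i)) f = eval p f :=
    fun f hf => eval_congr_supp fun u hu => Function.update_of_ne (by rintro rfl; exact hu hf) _ _
  rw [← E3 (Function.update p i (q i)) (by rw [e H fH, p1]) (by rw [e R fR, p2])]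
  refine eval_congr_supp fun u hu => ?_
  by_cases e1 : u = i
  · subst e1; simp [hl.symm]
  · obtain rfl := j3 u e1 fun e => hu (e ▸ E1)
    simp [e1]

/-- heights -/
theorem height (D : ℕ) : ∃ e : ℕ, ∀ (B : ℕ) (W : Type) (η : W → Fin 3 → ℤ) (H : P), 2 ≤ B →
    (∀ ξ j, |η ξ j| ≤ B) → Irreducible H → H.totalDegree ≤ D →
    (∀ ξ, eval (fun j => (η ξ j : ℚ)) H = 0) →
    (∃ R : P, ¬ H ∣ R ∧ R.support ⊆ H.support ∧ ∀ ξ, eval (fun j => (η ξ j : ℚ)) R = 0) ∨
    ∃ (G : MvPolynomial (Fin 3) ℤ) (c : ℚ), c ≠ 0 ∧ map (Int.castRingHom ℚ) G = C c * H ∧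
      ∀ (x : Fin 3 → ℤ) (j : Fin 3), (∀ u, |x u| ≤ B) → |eval x (pderiv j G)| ≤ (B : ℤ) ^ e := by
  classical
  obtain ⟨s, hs⟩ : ∃ s, s = (D + 1) ^ 3 := ⟨_, rfl⟩
  refine ⟨s + ((s + D) * s + D + D), fun B W η H hB hη hH dH hz => ?_⟩
  have : Nonempty H.support := (support_nonempty.2 hH.ne_zero).to_subtype
  have B1 : (1 : ℤ) ≤ B := by exact_mod_cast (by omega : 1 ≤ B)
  have pw : ∀ r : ℕ, (r : ℤ) ≤ (B : ℤ) ^ r := fun r => by
    exact_mod_cast (Nat.lt_pow_self (by omega : 1 < B)).le
  have cs : Fintype.card H.support ≤ s := by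
    rw [Fintype.card_coe, hs]
    refine (card_le_card_of_injOn (t := Fintype.piFinset fun _ : Fin 3 => range (D + 1)) (⇑)
      (fun α hα => ?_) fun _ _ _ _ e => DFunLike.coe_injective e).trans (by simp)
    refine mem_coe.2 (Fintype.mem_piFinset.2 fun j => mem_range.2 (Nat.lt_succ_of_le ?_))
    exact (degreeOf_le_iff.1 le_rfl α hα).trans ((degreeOf_le_totalDegree _ _).trans dH)
  have mon : ∀ (x : Fin 3 → ℤ) (β : Fin 3 →₀ ℕ), (∀ u, |x u| ≤ B) → ∑ j, β j ≤ D →
      |∏ j, x j ^ β j| ≤ (B : ℤ) ^ D := fun x β hx hβ => by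
    rw [abs_prod]
    refine (prod_le_prod (fun _ _ => abs_nonneg _) fun j _ => ?_ :
      _ ≤ ∏ j, (B : ℤ) ^ β j).trans ?_
    · rw [abs_pow]; exact pow_le_pow_left₀ (abs_nonneg _) (hx j) _
    · rw [prod_pow_eq_pow_sum]; exact pow_le_pow_right₀ B1 hβ
  obtain ⟨c, c0, c1, c2⟩ := siegel (fun (α : H.support) ξ => ∏ j, η ξ j ^ α.1 j) (A := B ^ D)
    (Nat.one_le_pow _ _ (by omega)) (fun α ξ => by
      push_cast; exact mon _ _ (hη ξ) ((sum_le_deg α.2).trans dH)) fun pts => by
      apply Int.cast_injective (α := ℚ)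
      rw [← eq_intCast (Int.castRingHom ℚ), RingHom.map_det, Int.cast_zero,
        ← Matrix.exists_vecMul_eq_zero_iff]
      refine ⟨fun α => coeff α.1 H, fun e => ?_, funext fun i => ?_⟩
      · obtain ⟨α⟩ := this
        exact mem_support_iff.1 α.2 (congrFun e α)
      · have := hz (pts i)
        rw [eval_eq', ← sum_coe_sort] at this
        simpa [Matrix.vecMul, dotProduct] using this
  obtain ⟨G, hG⟩ : ∃ G, G = pol (fun α : H.support => α.1) c := ⟨_, rfl⟩
  have eG : map (Int.castRingHom ℚ) G = pol (fun α : H.support => α.1) fun α => (c α : ℚ) := by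
    simp [hG, pol, map_monomial]
  have sG : (map (Int.castRingHom ℚ) G).support ⊆ H.support := fun β hβ => by
    obtain ⟨α, rfl, -⟩ := supp_pol (eG ▸ hβ)
    exact α.2
  by_cases hd : H ∣ map (Int.castRingHom ℚ) G
  · right
    have G0 : map (Int.castRingHom ℚ) G ≠ 0 := fun e => c0 (funext fun α => by
      have := coeff_pol (α := fun α : H.support => α.1) (c := fun α => (c α : ℚ)) α
        fun _ e e' => absurd (Subtype.ext e) e'
      rw [← eG, e, coeff_zero] at this
      exact_mod_cast this.symm)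
    obtain ⟨r, hr⟩ := hd
    have r0 : r ≠ 0 := fun e => G0 (by rw [hr, e, mul_zero])
    have d1 := totalDegree_le_of_support_subset sG
    rw [hr, totalDegree_mul_of_isDomain hH.ne_zero r0] at d1
    have e := totalDegree_eq_zero_iff_eq_C.1 (show r.totalDegree = 0 by omega)
    refine ⟨G, coeff 0 r, fun e0 => r0 (by rw [e, e0, map_zero]), by rw [hr, ← e, mul_comm],
      fun x j hx => ?_⟩
    rw [hG, pol, map_sum, map_sum]
    refine (abs_sum_le_sum_abs _ _).trans ((sum_le_card_nsmul _ _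
      ((B : ℤ) ^ ((s + D) * s + D + D)) fun α _ => ?_).trans ?_)
    · have a1 := (sum_le_deg α.2).trans dH
      rw [pderiv_monomial, eval_monomial, Finsupp.prod_fintype _ _ (by simp), abs_mul, abs_mul,
        pow_add, pow_add]
      refine mul_le_mul (mul_le_mul ((c1 α).trans ?_) ?_ (abs_nonneg _) (by positivity))
        (mon _ _ hx (le_trans (sum_le_sum fun _ _ => by simp) a1)) (abs_nonneg _) (by positivity)
      · rw [pow_mul, pow_add]
        refine (pow_le_pow_left₀ (by positivity) ?_ _).trans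
          (pow_le_pow_right₀ (one_le_mul_of_one_le_of_one_le (one_le_pow₀ B1) (one_le_pow₀ B1)) cs)
        push_cast
        exact mul_le_mul_of_nonneg_right (le_trans (by exact_mod_cast cs) (pw s)) (by positivity)
      · rw [Nat.abs_cast]
        refine le_trans ?_ (pw D)
        exact_mod_cast (single_le_sum (f := fun u => α.1 u) (fun _ _ => Nat.zero_le _)
          (mem_univ j)).trans a1
    · rw [card_univ, nsmul_eq_mul, pow_add (B : ℤ) s]
      exact mul_le_mul_of_nonneg_right (le_trans (by exact_mod_cast cs) (pw s)) (by positivity)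
  · refine Or.inl ⟨_, hd, sG, fun ξ => ?_⟩
    rw [eG, eval_pol]
    exact_mod_cast c2 ξ

end Pool.Agent.Lib.MP_f03f34_nt
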