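import Pool.Agent.Lib.MP_f03f34_nt.Fam

/-! Points of one residue class lie on auxiliary surfaces, curves, finite sets. -/

namespace Pool.Agent.Lib.MP_f03f34_nt

open Finset MvPolynomial

abbrev Pt := (Fin 3 → ℤ) × ℤ

def xq (ξ : Pt) : Fin 3 → ℚ := fun j => ξ.1 j

structure Sol (n B : ℕ) (ξ : Pt) : Prop where
  eq : ξ.1 0 ^ 4 + ξ.1 1 ^ 4 + ξ.1 2 ^ 4 + ξ.2 ^ 4 = n
  pos : 0 < ξ.2
  bw : ξ.2 ≤ B
  bx : ∀ j, 0 ≤ ξ.1 j ∧ ξ.1 j ≤ B

structure Cls (n y r L : ℕ) (Q : ℤ) (ξ₀ : Pt) (V : Finset Pt) : Prop where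
  sol : ∀ ξ ∈ V, Sol n (y ^ r) ξ
  dx : ∀ ξ ∈ V, ∀ j, Q ∣ ξ.1 j - ξ₀.1 j
  dw : ∀ ξ ∈ V, Q ∣ ξ.2 - ξ₀.2
  big : (y : ℤ) ^ L ≤ Q
  cop : IsCoprime (4 * ξ₀.2 ^ 3) Q

variable {n y r L B : ℕ} {Q : ℤ} {ξ₀ ξ : Pt} {V : Finset Pt}

lemma Sol.rho (h : Sol n B ξ) : eval (xq ξ) (rho n) = (ξ.2 : ℚ) ^ 4 := by
  have := congrArg (Int.cast (R := ℚ)) h.eq
  push_cast at this
  simp only [MP_f03f34_nt.rho, xq, map_sub, map_add, map_pow, eval_C, eval_X]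
  linarith

lemma Sol.ax (h : Sol n B ξ) (j : Fin 3) : |ξ.1 j| ≤ B := by
  rw [abs_of_nonneg (h.bx j).1]; exact (h.bx j).2

lemma Sol.aw (h : Sol n B ξ) : |ξ.2| ≤ B := by
  rw [abs_of_pos h.pos]; exact h.bw

lemma Sol.ext {ξ' : Pt} (h : Sol n B ξ) (h' : Sol n B ξ') (e : ξ.1 = ξ'.1) : ξ = ξ' := by
  refine Prod.ext e ((pow_left_inj₀ h.pos.le h'.pos.le (by norm_num : 4 ≠ 0)).1 ?_)
  have := h.eq
  rw [e] at this
  linarith [h'.eq]

lemma Cls.w_mem (h : Cls n y r L Q ξ₀ V) {m : ℕ} {t : V → Fin m → ℤ}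
    (hη : ∀ j, (fun ξ : V => ξ.1.1 j) ∈ Rp Q t) : (fun ξ : V => ξ.1.2) ∈ Rp Q t :=
  newton (σ := Option (Fin 3)) (η := fun (ξ : V) o => o.elim ξ.1.2 ξ.1.1) (i := none)
    (g := X (some 0) ^ 4 + X (some 1) ^ 4 + X (some 2) ^ 4 + X none ^ 4 - C (n : ℤ))
    (x₀ := fun o => o.elim ξ₀.2 ξ₀.1)
    (fun ξ => by simpa [sub_eq_zero] using (h.sol _ ξ.2).eq)
    (fun ξ o => by
      cases o
      exacts [h.dw _ ξ.2, h.dx _ ξ.2 _])
    (by simpa [pderiv_X] using h.cop) fun o ho => by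
      cases o
      exacts [absurd rfl ho, hη _]

lemma eval_int {G : MvPolynomial (Fin 3) ℤ} {c : ℚ} {H : P}
    (h : map (Int.castRingHom ℚ) G = C c * H) (x : Fin 3 → ℤ) :
    (eval x G : ℚ) = c * eval (fun j => (x j : ℚ)) H := by
  have := congrArg (eval fun j => (x j : ℚ)) h
  rw [map_mul, eval_C, eval_map] at this
  rw [← this]
  exact (eval₂_comp (Int.castRingHom ℚ) x G :)

theorem A3 (h : r ^ 3 < 4 * L ^ 3) (hr : 0 < r) : ∃ D c : ℕ, ∀ (n y : ℕ) (Q : ℤ) (ξ₀ : Pt)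
    (V : Finset Pt), 0 < n → c < y → Cls n y r L Q ξ₀ V →
    ∃ R : P, R ≠ 0 ∧ R.totalDegree ≤ D ∧ ∀ ξ ∈ V, eval (xq ξ) R = 0 := by
  classical
  obtain ⟨k, κ, hk⟩ := arith3 h hr
  let S := (Fintype.piFinset fun _ : Fin 3 => range (k + 1)).filter fun α => ∑ j, α j ≤ k
  have s1 : ∑ α ∈ S, (k - ∑ j, α j) = (k + 3).choose 4 := by
    rw [← sum_tuple 3 (k + 1) k (by omega)]
    exact sum_filter_of_ne fun α _ h => by omega
  have s2 : ∑ α ∈ S, (k + 1 - ∑ j, α j) = (k + 4).choose 4 := by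
    rw [← sum_tuple 3 (k + 1) (k + 1) le_rfl]
    exact sum_filter_of_ne fun α _ h => by omega
  have s3 : S.card = (k + 3).choose 3 := by
    have : ∑ α ∈ S, (k + 1 - ∑ j, α j) = ∑ α ∈ S, (k - ∑ j, α j + 1) :=
      sum_congr rfl fun α hα => by have := (mem_filter.1 hα).2; omega
    rw [s2, sum_add_distrib, s1, Nat.choose_succ_succ' (k + 3) 3] at this
    simp only [sum_const, smul_eq_mul, mul_one, Nat.reduceAdd] at this
    omega
  have s4 : ∑ α ∈ S, ∑ j, α j = k * (k + 3).choose 3 - (k + 3).choose 4 := by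
    have : ∑ α ∈ S, (k - ∑ j, α j + ∑ j, α j) = ∑ α ∈ S, k :=
      sum_congr rfl fun α hα => by have := (mem_filter.1 hα).2; omega
    rw [sum_add_distrib, s1, sum_const, s3, smul_eq_mul, mul_comm] at this
    omega
  have : Nonempty S := ⟨⟨0, by simp [S]⟩⟩
  refine ⟨4 * k + 12, (Fintype.card (S × Fin 4)).factorial, fun n y Q ξ₀ V hn hy hc => ?_⟩
  have hη : ∀ j, (fun ξ : V => ξ.1.1 j) ∈ Rp Q fun (ξ : V) j => ξ.1.1 j - ξ₀.1 j :=
    fun j => par_mem j (ξ₀.1 j) fun ξ => by simp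
  obtain ⟨A, ⟨u, u4, a1⟩, a2, a3⟩ := auxf (ι := S × Fin 4) (fun ξ j => hc.dx _ ξ.2 j) hη
    (hc.w_mem hη) (fun ξ j => (hc.sol _ ξ.2).ax j) (fun ξ => (hc.sol _ ξ.2).aw) hc.big
    (fun s => s.1.1) (fun s => s.2) (fun s => s.2.2)
    (fun s s' h1 h2 => Prod.ext (Subtype.ext h1) (Fin.ext h2)) κ hy (by
      refine lt_of_eq_of_lt ?_ (hk.trans_eq ?_)
      · congr 1
        rw [Fintype.sum_prod_type, sum_coe_sort S fun α => ∑ u : Fin 4, (∑ j, α j + u), ← s4, ← s3,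
          mul_sum, card_eq_sum_ones, mul_sum, ← sum_add_distrib]
        refine sum_congr rfl fun α _ => ?_
        simp [Fin.sum_univ_four]
        ring
      · simp [s3, mul_comm])
  have dA : ∀ u, (A u).totalDegree ≤ k := fun u => deg_le_of_supp fun β hβ => by
    obtain ⟨s, h, -⟩ := a2 u β hβ
    exact h ▸ (mem_filter.1 s.1.2).2
  refine ⟨Nm (rho n) (A 0) (A 1) (A 2) (A 3), fun e => a1 ?_,
    deg_Nm (deg_rho _) (dA _) (dA _) (dA _) (dA _),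
    fun ξ hξ => eval_Nm (hc.sol _ hξ).rho (a3 ⟨ξ, hξ⟩)⟩
  obtain ⟨e0, e1, e2, e3⟩ := normA (by exact_mod_cast hn) e
  interval_cases u <;> assumption

theorem A2 (hn : 0 < n) (hr : 0 < r) (hL : 5 * r ≤ 8 * L) (hy : Nat.factorial 400 < y)
    (hc : Cls n y r L Q ξ₀ V) (s₀ : Sol n B ξ₀) {H : P} (hH : Irreducible H)
    (h0 : eval (xq ξ₀) H = 0) (hV : ∀ ξ ∈ V, eval (xq ξ) H = 0) {G : MvPolynomial (Fin 3) ℤ}
    {c : ℚ} (hG : map (Int.castRingHom ℚ) G = C c * H) {i : Fin 3}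
    (h1 : eval (xq ξ₀) (pderiv i H) ≠ 0) (h2 : IsCoprime (eval ξ₀.1 (pderiv i G)) Q) :
    ∃ R : P, ¬ H ∣ R ∧ R.totalDegree ≤ 52 ∧ ∀ ξ ∈ V, eval (xq ξ) R = 0 := by
  let t : V → Fin 2 → ℤ := fun ξ u => ξ.1.1 (i.succAbove u) - ξ₀.1 (i.succAbove u)
  have h3 : ∀ j, j ≠ i → (fun ξ : V => ξ.1.1 j) ∈ Rp Q t := fun j hj => by
    obtain ⟨u, rfl⟩ := Fin.exists_succAbove_eq hj
    exact par_mem u (ξ₀.1 (i.succAbove u)) fun ξ => by simp [t]
  have hη : ∀ j, (fun ξ : V => ξ.1.1 j) ∈ Rp Q t := fun j => by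
    by_cases hj : j = i
    · subst hj
      refine newton (η := fun ξ : V => ξ.1.1) (fun ξ => ?_) (fun ξ => hc.dx _ ξ.2) h2 h3
      have := eval_int hG ξ.1.1
      rw [show eval (fun j => (ξ.1.1 j : ℚ)) H = 0 from hV _ ξ.2, mul_zero] at this
      exact_mod_cast this
    · exact h3 j hj
  obtain ⟨d, d1, d2, d3⟩ : ∃ d, d ≤ H.totalDegree ∧ (d = 1 ∨ d = 2 ∨ d = 3) ∧
      (d = H.totalDegree ∨ d = 3) := ⟨min 3 H.totalDegree, by have := deg_pos hH; omega⟩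
  obtain ⟨μ, m1, -, m2⟩ := exists_mu hH.ne_zero d1
  have ok : Ok 10 (4 - d) 17 2 fun x y z => ¬ (μ 0 ≤ x ∧ μ 1 ≤ y ∧ μ 2 ≤ z) := by
    rcases d2 with rfl | rfl | rfl
    exacts [ok1 _ (by omega) _ (by omega) _ (by omega) m1,
      ok2 _ (by omega) _ (by omega) _ (by omega) m1, ok3 _ (by omega) _ (by omega) _ (by omega) m1]
  obtain ⟨A, ⟨u, u4, a1⟩, dA, a2, a3, a4⟩ := auxs (fun ξ u => hc.dx _ ξ.2 _) hη
    (hc.w_mem hη) (fun ξ j => (hc.sol _ ξ.2).ax j) (fun ξ => (hc.sol _ ξ.2).aw) hc.big hr hL hy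
    (by omega) ok
  refine ⟨Nm (rho n) (A 0) (A 1) (A 2) (A 3), fun e => a1 ?_,
    deg_Nm (deg_rho _) (dA _) (dA _) (dA _) (dA _),
    fun ξ hξ => eval_Nm (hc.sol _ hξ).rho (a4 ⟨ξ, hξ⟩)⟩
  have e3 := a2 3 (by omega)
  rw [e3] at e
  obtain ⟨e0, e1, e2⟩ := surf (by exact_mod_cast hn) hH h0 h1 s₀.rho
    (by exact_mod_cast s₀.pos.ne') (fun h => a2 2 (by omega)) (fun h => a2 1 (by omega)) e
  interval_cases u
  exacts [m2 _ e0 (a3 _), m2 _ e1 (a3 _), m2 _ e2 (a3 _), e3]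

theorem A1 (hr : 0 < r) (hL : 5 * r ≤ 8 * L) (hy : Nat.factorial 400 < y)
    (hc : Cls n y r L Q ξ₀ V) (s₀ : Sol n (y ^ r) ξ₀) {H : P} (hH : Irreducible H)
    (dH : 2 ≤ H.totalDegree) {i : Fin 3} (fH : degreeOf i H = 0)
    (hV : ∀ ξ ∈ V, eval (xq ξ) H = 0) {G : MvPolynomial (Fin 3) ℤ}
    {c : ℚ} (hG : map (Int.castRingHom ℚ) G = C c * H) {j : Fin 3}
    (h1 : eval (xq ξ₀) (pderiv j H) ≠ 0) (h2 : IsCoprime (eval ξ₀.1 (pderiv j G)) Q) :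
    ∃ R : P, ¬ H ∣ R ∧ R.totalDegree ≤ 3 ∧ degreeOf i R = 0 ∧ ∀ ξ ∈ V, eval (xq ξ) R = 0 := by
  have ji : j ≠ i := by
    rintro rfl
    obtain ⟨β, hβ⟩ := support_nonempty.2 (fun e => h1 (by rw [e, map_zero]) : pderiv j H ≠ 0)
    simpa using degreeOf_le_iff.1 fH.le _ (mem_supp_pderiv hβ)
  obtain ⟨l, l1, l2, l3⟩ := third i j ji
  let η : V → Fin 3 → ℤ := fun ξ => Function.update ξ.1.1 i (ξ₀.1 i)
  have ev : ∀ f : P, degreeOf i f = 0 → ∀ ξ : V, eval (fun u => (η ξ u : ℚ)) f = eval (xq ξ) f :=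
    fun f hf ξ => eval_congr_supp fun u hu => by
      simp only [η, xq, Function.update_of_ne (show u ≠ i by rintro rfl; exact hu hf)]
  let t : V → Fin 1 → ℤ := fun ξ _ => ξ.1.1 l - ξ₀.1 l
  have h3 : ∀ u, u ≠ j → (fun ξ : V => η ξ u) ∈ Rp Q t := fun u hu => by
    by_cases e : u = i
    · subst e
      simpa [η] using const_mem (ξ₀.1 u)
    · obtain rfl : u = l := by_contra fun q => hu (l3 u e q)
      exact par_mem 0 (ξ₀.1 u) fun ξ => by simp [t, η, e]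
  have hη : ∀ u, (fun ξ : V => η ξ u) ∈ Rp Q t := fun u => by
    by_cases hj : u = j
    · subst hj
      refine newton (η := η) (fun ξ => ?_) (fun ξ v => ?_) h2 h3
      · have := eval_int hG (η ξ)
        rw [ev H fH, hV _ ξ.2, mul_zero] at this
        exact_mod_cast this
      · by_cases e : v = i
        · simp [η, e]
        · simpa [η, e] using hc.dx _ ξ.2 v
    · exact h3 u hj
  obtain ⟨μ, m1, m3, m2⟩ := exists_mu hH.ne_zero dH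
  obtain ⟨A, ⟨u, u4, a1⟩, dA, a2, a3, a4⟩ := auxs (t := t) (fun ξ u => hc.dx _ ξ.2 _) hη
    (const_mem 0) (fun ξ v => by
      by_cases e : v = i
      · simpa only [η, e, Function.update_self] using s₀.ax i
      · simpa only [η, Function.update_of_ne e] using (hc.sol _ ξ.2).ax v)
    (fun ξ => by positivity) hc.big hr hL hy (by omega)
    (okC i (μ 0) (by omega) (μ 1) (by omega) (μ 2) (by omega) m1 (by
      have := (m3 i).trans fH.le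
      fin_cases i <;> simpa using this))
  obtain rfl : u = 0 := by_contra fun q => a1 (a2 u (by omega))
  have f0 : degreeOf i (A 0) = 0 := Nat.le_zero.1 (degreeOf_le_iff.2 fun β hβ => by
    have := (a3 0 β hβ).2
    fin_cases i <;> simpa using this)
  exact ⟨A 0, fun e => a1 (m2 _ e fun β hβ => (a3 0 β hβ).1), dA 0, f0,
    fun ξ hξ => by simpa [ev _ f0] using a4 ⟨ξ, hξ⟩⟩

theorem A0 (hn : 0 < n) (hr : 0 < r) (hL : 5 * r ≤ 8 * L) (hy : Nat.factorial 400 < y)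
    (hc : Cls n y r L Q ξ₀ V) {v : Fin 3 → ℤ} {l : Fin 3} (v0 : v l ≠ 0)
    (h2 : IsCoprime (v l) Q)
    (hV : ∀ ξ ∈ V, ∀ ξ' ∈ V, ∀ j, v l * (ξ.1 j - ξ'.1 j) = v j * (ξ.1 l - ξ'.1 l)) :
    V.card ≤ 28 := by
  classical
  rcases V.eq_empty_or_nonempty with rfl | ⟨ζ, hζ⟩
  · simp
  let t : V → Fin 1 → ℤ := fun ξ _ => ξ.1.1 l - ζ.1 l
  have hη : ∀ j, (fun ξ : V => ξ.1.1 j) ∈ Rp Q t := fun j => lim_mem fun N => by
    obtain ⟨a, b, e⟩ := h2.pow_right (n := N)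
    refine ⟨fun ξ => ζ.1 j + a * v j * t ξ 0, add_mem (const_mem _) (mul_mem (const_mem _)
      (par_mem 0 0 fun ξ => by simp)), fun ξ => ⟨-b * (ξ.1.1 j - ζ.1 j), ?_⟩⟩
    have := hV _ ξ.2 _ hζ j
    simp only [t]
    linear_combination (ξ.1.1 j - ζ.1 j) * e - a * this
  obtain ⟨A, ⟨u, u4, a1⟩, dA, a2, a3, a4⟩ := auxs (t := t) (fun ξ u => by
      simpa [t] using dvd_sub (hc.dx _ ξ.2 l) (hc.dx _ hζ l)) hη
    (hc.w_mem hη) (fun ξ j => (hc.sol _ ξ.2).ax j) (fun ξ => (hc.sol _ ξ.2).aw) hc.big hr hL hy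
    (by omega) (okL l)
  have v1 : (v l : ℚ) ≠ 0 := by exact_mod_cast v0
  obtain ⟨g, hg⟩ : ∃ g : Fin 3 → P, g = fun j =>
    C ((ζ.1 j : ℚ) - v j / v l * ζ.1 l) + C ((v j : ℚ) / v l) * X l := ⟨_, rfl⟩
  have dg : ∀ j, (g j ^ 4).totalDegree ≤ 4 := fun j => dle_pow (a := 1) (by
    rw [hg]
    exact dle_add ((dle_C _).trans (by norm_num)) (dle_mul (dle_C _) (b := 1) (by simp))) 4
  obtain ⟨ρ, hρ⟩ : ∃ ρ : P, ρ = C (n : ℚ) - (g 0 ^ 4 + g 1 ^ 4 + g 2 ^ 4) := ⟨_, rfl⟩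
  have eρ : ∀ p, eval p ρ = eval (fun j => eval p (g j)) (rho n) := fun p => by simp [hρ, rho]
  have E0 : Nm ρ (A 0) (A 1) (A 2) (A 3) ≠ 0 := fun e => a1 (by
    have e2 := a2 2 le_rfl
    have e3 := a2 3 (by omega)
    rw [e2, e3, Nm] at e
    obtain ⟨e1, e0⟩ := ns (U := A 0 ^ 2) (V := A 1 ^ 2) (a := ρ) (fun _ => n + 1)
      (by rw [eρ]; exact rho_neg (by exact_mod_cast hn) (j := l) (by simp [hg, v1]))
      (by linear_combination e)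
    interval_cases u
    exacts [eq_zero_of_pow_eq_zero e0, eq_zero_of_pow_eq_zero e1, e2, e3])
  rw [← card_image_of_injOn (f := fun ξ : Pt => xq ξ l) fun ξ hξ ξ' hξ' e =>
    (hc.sol _ hξ).ext (hc.sol _ hξ') (funext fun j => by
      have h := hV _ hξ _ hξ' j
      rw [show ξ.1 l = ξ'.1 l from Int.cast_injective (α := ℚ) e, sub_self, mul_zero] at h
      exact sub_eq_zero.1 ((mul_eq_zero.1 h).resolve_left v0))]
  refine (card_roots E0 l _ fun a ha p => ?_).trans (deg_Nm (k := 4)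
    (hρ ▸ dle_sub ((dle_C _).trans (by norm_num)) (dle_add (dle_add (dg 0) (dg 1)) (dg 2)))
    (dA _) (dA _) (dA _) (dA _))
  obtain ⟨ξ, hξ, rfl⟩ := mem_image.1 ha
  have ev : ∀ u, eval (Function.update p l (xq ξ l)) (A u) = eval (xq ξ) (A u) := fun u =>
    eval_congr_supp fun j hj => by
      obtain rfl : j = l := by_contra fun q => hj (Nat.le_zero.1 (degreeOf_le_iff.2 fun β hβ => by
        have := a3 u β hβ j q
        fin_cases j <;> simpa using this))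
      simp
  refine eval_Nm (w := ξ.2) ?_ (by simp only [ev]; exact a4 ⟨ξ, hξ⟩)
  rw [eρ, ← (hc.sol _ hξ).rho]
  congr 2
  funext j
  have := congrArg (Int.cast (R := ℚ)) (hV _ hξ _ hζ j)
  push_cast at this
  simp only [hg, xq, map_add, map_mul, eval_C, eval_X, Function.update_self]
  field_simp
  linear_combination -this

end Pool.Agent.Lib.MP_f03f34_nt
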