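import Pool.Agent.Lib.MP_f03f34_nt.Alg

/-! No hyperplane section of the quartic is a pair of quadrics. -/

namespace Pool.Agent.Lib.MP_f03f34_nt

open Finset MvPolynomial

lemma root4 (c4 c3 c2 c1 c0 : ℂ) : ∃ a b : ℂ, (a ≠ 0 ∨ b ≠ 0) ∧
    c4 * a ^ 4 + c3 * a ^ 3 * b + c2 * a ^ 2 * b ^ 2 + c1 * a * b ^ 3 + c0 * b ^ 4 = 0 := by
  by_cases h : c4 = 0
  · exact ⟨1, 0, Or.inl one_ne_zero, by simp [h]⟩
  · obtain ⟨a, ha⟩ := Complex.exists_root (f := Polynomial.C c4 * Polynomial.X ^ 4 +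
      Polynomial.C c3 * Polynomial.X ^ 3 + Polynomial.C c2 * Polynomial.X ^ 2 +
      Polynomial.C c1 * Polynomial.X + Polynomial.C c0)
      (Polynomial.natDegree_pos_iff_degree_pos.1 (lt_of_lt_of_eq (b := 4) (by norm_num)
        (Eq.symm (by compute_degree!))))
    exact ⟨a, 1, Or.inr one_ne_zero, by simpa using ha⟩

lemma root2 {c2 : ℂ} (h : c2 ≠ 0) (c1 c0 : ℂ) : ∃ a : ℂ, c2 * a ^ 2 + c1 * a + c0 = 0 := by
  obtain ⟨a, ha⟩ := Complex.exists_root (f := Polynomial.C c2 * Polynomial.X ^ 2 +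
    Polynomial.C c1 * Polynomial.X + Polynomial.C c0)
    (by rw [Polynomial.degree_quadratic h]; norm_num)
  exact ⟨a, by simpa using ha⟩

lemma conics_aux {γ : ℂ} (hγ : γ ≠ 0) (s1 s0 u2 u1 u0 p1 p0 r2 r1 r0 : ℂ) :
    ∃ a b c : ℂ, (a ≠ 0 ∨ b ≠ 0 ∨ c ≠ 0) ∧
      γ * c ^ 2 + (s1 * a + s0 * b) * c + (u2 * a ^ 2 + u1 * a * b + u0 * b ^ 2) = 0 ∧
      (p1 * a + p0 * b) * c + (r2 * a ^ 2 + r1 * a * b + r0 * b ^ 2) = 0 := by
  obtain ⟨a, b, h0, h⟩ := root4 (γ * r2 ^ 2 - s1 * p1 * r2 + u2 * p1 ^ 2)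
    (2 * γ * r2 * r1 - (s1 * p1 * r1 + (s1 * p0 + s0 * p1) * r2) + (2 * u2 * p1 * p0 + u1 * p1 ^ 2))
    (γ * (r1 ^ 2 + 2 * r2 * r0) - (s1 * p1 * r0 + (s1 * p0 + s0 * p1) * r1 + s0 * p0 * r2) +
      (u2 * p0 ^ 2 + 2 * u1 * p1 * p0 + u0 * p1 ^ 2))
    (2 * γ * r1 * r0 - ((s1 * p0 + s0 * p1) * r0 + s0 * p0 * r1) + (u1 * p0 ^ 2 + 2 * u0 * p1 * p0))
    (γ * r0 ^ 2 - s0 * p0 * r0 + u0 * p0 ^ 2)
  obtain ⟨g1, e1⟩ : ∃ g, g = p1 * a + p0 * b := ⟨_, rfl⟩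
  obtain ⟨g2, e2⟩ : ∃ g, g = r2 * a ^ 2 + r1 * a * b + r0 * b ^ 2 := ⟨_, rfl⟩
  obtain ⟨f1, e3⟩ : ∃ g, g = s1 * a + s0 * b := ⟨_, rfl⟩
  obtain ⟨f2, e4⟩ : ∃ g, g = u2 * a ^ 2 + u1 * a * b + u0 * b ^ 2 := ⟨_, rfl⟩
  have hr : γ * g2 ^ 2 - f1 * g1 * g2 + f2 * g1 ^ 2 = 0 := by
    rw [e1, e2, e3, e4]; linear_combination h
  have n0 : ∀ c : ℂ, a ≠ 0 ∨ b ≠ 0 ∨ c ≠ 0 := fun c => h0.imp id Or.inl
  by_cases hg : g1 = 0
  · obtain ⟨c, hc⟩ := root2 hγ f1 f2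
    refine ⟨a, b, c, n0 c, by rw [← e3, ← e4]; exact hc, ?_⟩
    rw [← e1, ← e2, hg]
    rw [hg] at hr
    simpa [hγ] using hr
  · refine ⟨a, b, -g2 / g1, n0 _, ?_, ?_⟩
    · rw [← e3, ← e4]; field_simp; linear_combination hr
    · rw [← e1, ← e2]; field_simp; ring

def IsQ (q : ℂ → ℂ → ℂ → ℂ) : Prop := ∀ a b c, q a b c = q 0 0 1 * c ^ 2 +
  ((q 1 0 1 - q 1 0 0 - q 0 0 1) * a + (q 0 1 1 - q 0 1 0 - q 0 0 1) * b) * c +
  (q 1 0 0 * a ^ 2 + (q 1 1 0 - q 1 0 0 - q 0 1 0) * a * b + q 0 1 0 * b ^ 2)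

lemma conics {q r : ℂ → ℂ → ℂ → ℂ} (hq : IsQ q) (hr : IsQ r) :
    ∃ a b c : ℂ, (a ≠ 0 ∨ b ≠ 0 ∨ c ≠ 0) ∧ q a b c = 0 ∧ r a b c = 0 := by
  have key : ∀ q r : ℂ → ℂ → ℂ → ℂ, IsQ q → IsQ r → q 0 0 1 ≠ 0 →
      ∃ a b c : ℂ, (a ≠ 0 ∨ b ≠ 0 ∨ c ≠ 0) ∧ q a b c = 0 ∧ r a b c = 0 := fun q r hq hr h => by
    obtain ⟨a, b, c, h0, h1, h2⟩ := conics_aux h (q 1 0 1 - q 1 0 0 - q 0 0 1)
      (q 0 1 1 - q 0 1 0 - q 0 0 1) (q 1 0 0) (q 1 1 0 - q 1 0 0 - q 0 1 0) (q 0 1 0)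
      (q 0 0 1 * (r 1 0 1 - r 1 0 0) - r 0 0 1 * (q 1 0 1 - q 1 0 0))
      (q 0 0 1 * (r 0 1 1 - r 0 1 0) - r 0 0 1 * (q 0 1 1 - q 0 1 0))
      (q 0 0 1 * r 1 0 0 - r 0 0 1 * q 1 0 0)
      (q 0 0 1 * (r 1 1 0 - r 1 0 0 - r 0 1 0) - r 0 0 1 * (q 1 1 0 - q 1 0 0 - q 0 1 0))
      (q 0 0 1 * r 0 1 0 - r 0 0 1 * q 0 1 0)
    refine ⟨a, b, c, h0, (hq a b c).trans h1, mul_left_cancel₀ h ?_⟩
    rw [hr a b c]
    linear_combination h2 + r 0 0 1 * h1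
  by_cases h1 : q 0 0 1 = 0
  · by_cases h2 : r 0 0 1 = 0
    · exact ⟨0, 0, 1, Or.inr (Or.inr one_ne_zero), h1, h2⟩
    · obtain ⟨a, b, c, h0, h3, h4⟩ := key r q hr hq h2
      exact ⟨a, b, c, h0, h4, h3⟩
  · exact key q r hq hr h1

lemma grad {f g e : ℂ → ℂ} (hf : DifferentiableAt ℂ f 0) (hg : DifferentiableAt ℂ g 0)
    (he : DifferentiableAt ℂ e 0) (f0 : f 0 = 0) (g0 : g 0 = 0) (e0 : e 0 = 0) {c x k : ℂ}
    (hc : c ≠ 0) (h : ∀ s, f s * g s = c * (x + s) ^ 4 + k + e s ^ 4) : x = 0 := by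
  have h1 := hf.hasDerivAt.fun_mul hg.hasDerivAt
  have h2 := (((((hasDerivAt_id' (0 : ℂ)).const_add x).fun_pow 4).const_mul c).add_const k).fun_add
    (he.hasDerivAt.fun_pow 4)
  rw [funext h] at h1
  have := h1.unique h2
  simpa [f0, g0, e0, hc] using this

def Qf (c : Fin 10 → ℂ) (x y z t : ℂ) : ℂ := c 0 * t ^ 2 + c 1 * x * t + c 2 * y * t + c 3 * z * t +
  c 4 * x ^ 2 + c 5 * y ^ 2 + c 6 * z ^ 2 + c 7 * x * y + c 8 * x * z + c 9 * y * z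

lemma no_quad (c d : Fin 10 → ℂ) (e0 e1 e2 e3 : ℂ) {n : ℂ} (hn : n ≠ 0)
    (h : ∀ x y z, Qf c x y z 1 * Qf d x y z 1 =
      x ^ 4 + y ^ 4 + z ^ 4 + (e0 + e1 * x + e2 * y + e3 * z) ^ 4 - n) : False := by
  have h1 : ∀ x y z t, t ≠ 0 → Qf c x y z t * Qf d x y z t =
      x ^ 4 + y ^ 4 + z ^ 4 + (e0 * t + e1 * x + e2 * y + e3 * z) ^ 4 - n * t ^ 4 := by
    intro x y z t ht
    obtain ⟨x, rfl⟩ : ∃ u, x = u * t := ⟨x / t, by field_simp⟩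
    obtain ⟨y, rfl⟩ : ∃ u, y = u * t := ⟨y / t, by field_simp⟩
    obtain ⟨z, rfl⟩ : ∃ u, z = u * t := ⟨z / t, by field_simp⟩
    have := h x y z
    unfold Qf at this ⊢
    linear_combination t ^ 4 * this
  have h2 : ∀ x y z t, Qf c x y z t * Qf d x y z t =
      x ^ 4 + y ^ 4 + z ^ 4 + (e0 * t + e1 * x + e2 * y + e3 * z) ^ 4 - n * t ^ 4 := by
    intro x y z t
    by_cases ht : t = 0
    · have a1 := h1 x y z 1 (by norm_num)
      have a2 := h1 x y z 2 (by norm_num)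
      have a3 := h1 x y z 3 (by norm_num)
      have a4 := h1 x y z 4 (by norm_num)
      have a5 := h1 x y z 5 (by norm_num)
      subst ht
      unfold Qf at *
      linear_combination 5 * a1 - 10 * a2 + 10 * a3 - 5 * a4 + a5
    · exact h1 x y z t ht
  have fin : ∀ x y z t, Qf c x y z t = 0 → Qf d x y z t = 0 →
      e0 * t + e1 * x + e2 * y + e3 * z = 0 → x = 0 ∧ y = 0 ∧ z = 0 ∧ t = 0 := by
    intro x y z t a b e
    refine ⟨grad (f := fun s => Qf c (x + s) y z t) (g := fun s => Qf d (x + s) y z t)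
        (e := fun s => e0 * t + e1 * (x + s) + e2 * y + e3 * z) (k := y ^ 4 + z ^ 4 - n * t ^ 4)
        ?_ ?_ ?_ ?_ ?_ ?_ one_ne_zero fun s => by rw [h2]; ring,
      grad (f := fun s => Qf c x (y + s) z t) (g := fun s => Qf d x (y + s) z t)
        (e := fun s => e0 * t + e1 * x + e2 * (y + s) + e3 * z) (k := x ^ 4 + z ^ 4 - n * t ^ 4)
        ?_ ?_ ?_ ?_ ?_ ?_ one_ne_zero fun s => by rw [h2]; ring,
      grad (f := fun s => Qf c x y (z + s) t) (g := fun s => Qf d x y (z + s) t)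
        (e := fun s => e0 * t + e1 * x + e2 * y + e3 * (z + s)) (k := x ^ 4 + y ^ 4 - n * t ^ 4)
        ?_ ?_ ?_ ?_ ?_ ?_ one_ne_zero fun s => by rw [h2]; ring,
      grad (f := fun s => Qf c x y z (t + s)) (g := fun s => Qf d x y z (t + s))
        (e := fun s => e0 * (t + s) + e1 * x + e2 * y + e3 * z) (k := x ^ 4 + y ^ 4 + z ^ 4)
        ?_ ?_ ?_ ?_ ?_ ?_ (neg_ne_zero.2 hn) fun s => by rw [h2]; ring⟩ <;>
    first
      | (simp only [add_zero]; assumption)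
      | (unfold Qf; fun_prop)
      | fun_prop
  have use : ∀ X Y Z T : ℂ → ℂ → ℂ → ℂ,
      (∀ k, IsQ fun a b c' => Qf k (X a b c') (Y a b c') (Z a b c') (T a b c')) →
      (∀ a b c', e0 * T a b c' + e1 * X a b c' + e2 * Y a b c' + e3 * Z a b c' = 0) →
      (∀ a b c', X a b c' = 0 → Y a b c' = 0 → Z a b c' = 0 → T a b c' = 0 →
        a = 0 ∧ b = 0 ∧ c' = 0) → False := fun X Y Z T hq he hi => by
    obtain ⟨a, b, c', h0, q1, q2⟩ := conics (hq c) (hq d)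
    obtain ⟨u1, u2, u3, u4⟩ := fin _ _ _ _ q1 q2 (he a b c')
    obtain ⟨v1, v2, v3⟩ := hi a b c' u1 u2 u3 u4
    simp [v1, v2, v3] at h0
  by_cases k1 : e1 = 0
  · by_cases k2 : e2 = 0
    · by_cases k3 : e3 = 0
      · exact use (fun a _ _ => a) (fun _ b _ => b) (fun _ _ c => c) (fun _ _ _ => 0)
          (fun k a b c => by unfold Qf; ring) (by simp [k1, k2, k3]) fun _ _ _ a b c _ => ⟨a, b, c⟩
      · exact use (fun a _ _ => e3 * a) (fun _ b _ => e3 * b)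
          (fun a b c => -(e1 * a + e2 * b + e0 * c)) (fun _ _ c => e3 * c)
          (fun k a b c => by unfold Qf; ring) (fun a b c => by ring)
          fun _ _ _ a b _ c => by simpa [k3] using And.intro a (And.intro b c)
    · exact use (fun a _ _ => e2 * a) (fun a b c => -(e1 * a + e3 * b + e0 * c))
        (fun _ b _ => e2 * b) (fun _ _ c => e2 * c)
        (fun k a b c => by unfold Qf; ring) (fun a b c => by ring)
        fun _ _ _ a _ b c => by simpa [k2] using And.intro a (And.intro b c)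
  · exact use (fun a b c => -(e2 * a + e3 * b + e0 * c)) (fun a _ _ => e1 * a)
      (fun _ b _ => e1 * b) (fun _ _ c => e1 * c)
      (fun k a b c => by unfold Qf; ring) (fun a b c => by ring)
      fun _ _ _ _ a b c => by simpa [k1] using And.intro a (And.intro b c)

lemma repr_deg {N : ℕ} (T : Fin N → Fin 3 → ℕ) (hT : Function.Injective T) {d : ℕ}
    (hc : ∀ a ≤ d, ∀ b ≤ d, ∀ c ≤ d, a + b + c ≤ d → ∃ s, T s = ![a, b, c]) {H : P}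
    (h : H.totalDegree ≤ d) :
    ∃ c : Fin N → ℚ, H = ∑ s, C (c s) * (X 0 ^ T s 0 * X 1 ^ T s 1 * X 2 ^ T s 2) := by
  let α : Fin N → (Fin 3 →₀ ℕ) := fun s => Finsupp.equivFunOnFinite.symm (T s)
  refine ⟨fun s => coeff (α s) H, Eq.trans (b := pol α fun s => coeff (α s) H) ?_ ?_⟩
  · ext β
    by_cases hb : ∃ s, α s = β
    · obtain ⟨s, rfl⟩ := hb
      exact (coeff_pol (α := α) (c := fun s => coeff (α s) H) s fun s' e e' =>
        absurd (hT (Finsupp.equivFunOnFinite.symm.injective e)) e').symm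
    · rw [(notMem_support_iff (p := pol α fun s => coeff (α s) H)).1
        fun e => hb ((supp_pol e).imp fun _ a => a.1)]
      refine notMem_support_iff.1 fun e => hb ?_
      have := (sum_le_deg e).trans h
      rw [Fin.sum_univ_three] at this
      obtain ⟨s, hs⟩ := hc (β 0) (by omega) (β 1) (by omega) (β 2) (by omega) this
      refine ⟨s, Finsupp.ext fun j => ?_⟩
      simp only [α, hs]
      fin_cases j <;> rfl
  · exact sum_congr rfl fun s _ => by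
      rw [monomial_eq, Finsupp.prod_fintype _ _ (by simp), Fin.prod_univ_three]; rfl

lemma repr1 {H : P} (h : H.totalDegree ≤ 1) :
    ∃ (a : ℚ) (b : Fin 3 → ℚ), H = C a + ∑ j, C (b j) * X j := by
  obtain ⟨c, hc⟩ := repr_deg ![![0, 0, 0], ![1, 0, 0], ![0, 1, 0], ![0, 0, 1]] (by decide)
    (by decide) h
  exact ⟨c 0, ![c 1, c 2, c 3], by rw [hc]; simp [Fin.sum_univ_succ]⟩

lemma repr2 {H : P} (h : H.totalDegree ≤ 2) : ∃ c : Fin 10 → ℚ, H = C (c 0) + C (c 1) * X 0 +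
    C (c 2) * X 1 + C (c 3) * X 2 + C (c 4) * X 0 ^ 2 + C (c 5) * X 1 ^ 2 + C (c 6) * X 2 ^ 2 +
    C (c 7) * X 0 * X 1 + C (c 8) * X 0 * X 2 + C (c 9) * X 1 * X 2 := by
  obtain ⟨c, hc⟩ := repr_deg ![![0, 0, 0], ![1, 0, 0], ![0, 1, 0], ![0, 0, 1], ![2, 0, 0],
    ![0, 2, 0], ![0, 0, 2], ![1, 1, 0], ![1, 0, 1], ![0, 1, 1]] (by decide) (by decide) h
  exact ⟨c, by rw [hc]; simp [Fin.sum_univ_succ]; ring⟩

theorem no_split {H G e : P} {n : ℚ} (hn : n ≠ 0) (dH : H.totalDegree ≤ 2) (dG : G.totalDegree ≤ 2)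
    (de : e.totalDegree ≤ 1) (h : H * G = X 0 ^ 4 + X 1 ^ 4 + X 2 ^ 4 + e ^ 4 - C n) : False := by
  obtain ⟨c, rfl⟩ := repr2 dH
  obtain ⟨d, rfl⟩ := repr2 dG
  obtain ⟨a, b, rfl⟩ := repr1 de
  refine no_quad (fun s => c s) (fun s => d s) a (b 0) (b 1) (b 2) (n := n) (by exact_mod_cast hn)
    fun x y z => ?_
  have := congrArg (aeval (R := ℚ) ![x, y, z]) h
  simp [Fin.sum_univ_three] at this
  unfold Qf
  linear_combination this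

end Pool.Agent.Lib.MP_f03f34_nt
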