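import Pool.Agent.Lib.MP_f03f34_nt.Cover

/-! The count of integer points. -/

namespace Pool.Agent.Lib.MP_f03f34_nt

open Finset MvPolynomial

noncomputable def Z (n B : ℕ) : Finset Pt :=
  ((Fintype.piFinset fun _ => Icc (0 : ℤ) B) ×ˢ Icc (1 : ℤ) B).filter fun ξ =>
    ξ.1 0 ^ 4 + ξ.1 1 ^ 4 + ξ.1 2 ^ 4 + ξ.2 ^ 4 = n

lemma mem_Z {n B : ℕ} {ξ : Pt} : ξ ∈ Z n B ↔ Sol n B ξ := by
  simp only [Z, mem_filter, mem_product, Fintype.mem_piFinset, mem_Icc]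
  exact ⟨fun h => ⟨h.2, h.1.2.1, h.1.2.2, h.1.1⟩, fun h => ⟨⟨h.bx, h.pos, h.bw⟩, h.eq⟩⟩

def red (p : ℕ) (ξ : Pt) : Pt := (fun j => ξ.1 j % p, ξ.2 % p)

noncomputable def Wc (n B : ℕ) (ξ : Pt) (q : Finset ℕ) : Finset Pt :=
  (Z n B).filter fun ζ => ∀ p ∈ q, red p ζ = red p ξ

lemma prod_dvd {q : Finset ℕ} (h : ∀ p ∈ q, p.Prime) {d : ℤ} (hd : ∀ p ∈ q, (p : ℤ) ∣ d) :
    ((∏ p ∈ q, p : ℕ) : ℤ) ∣ d :=
  Int.natCast_dvd.2 (prod_primes_dvd _ (fun p m => (h p m).prime) fun p m =>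
    Int.natCast_dvd.1 (hd p m))

lemma prod_cop {q : Finset ℕ} (h : ∀ p ∈ q, p.Prime) {d : ℤ} (hd : ∀ p ∈ q, ¬ (p : ℤ) ∣ d) :
    IsCoprime d ((∏ p ∈ q, p : ℕ) : ℤ) := by
  push_cast
  exact IsCoprime.prod_right fun p m =>
    ((Nat.prime_iff_prime_int.1 (h p m)).coprime_iff_not_dvd.2 (hd p m)).symm

lemma card_good {A : Finset ℕ} {y s : ℕ} (hA : ∀ p ∈ A, p.Prime ∧ y < p) (hy : 1 < y) {d : ℤ}
    (d0 : d ≠ 0) (hd : |d| ≤ (y ^ s : ℕ)) :
    A.card ≤ s + (A.filter fun p : ℕ => ¬ (p : ℤ) ∣ d).card := by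
  rw [← card_filter_add_card_filter_not (fun p : ℕ => (p : ℤ) ∣ d)]
  refine Nat.add_le_add_right ((Nat.pow_le_pow_iff_right hy).1 ?_) _
  have h1 := Int.le_of_dvd (abs_pos.2 d0) ((dvd_abs _ _).2 (prod_dvd
    (q := A.filter fun p : ℕ => (p : ℤ) ∣ d) (fun p m => (hA p (mem_filter.1 m).1).1)
    fun p m => (mem_filter.1 m).2))
  exact (pow_card_le_prod _ _ _ fun p m => (hA p (mem_filter.1 m).1).2.le).trans
    (by exact_mod_cast h1.trans hd)

lemma avoid {A : Finset ℕ} {y s L : ℕ} (hA : ∀ p ∈ A, p.Prime ∧ y < p) (hy : 1 < y) {d : ℤ}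
    (d0 : d ≠ 0) (hd : |d| ≤ (y ^ s : ℕ)) (c : L + s ≤ A.card) :
    ∃ q ⊆ A, q.card = L ∧ IsCoprime d ((∏ p ∈ q, p : ℕ) : ℤ) := by
  have := card_good hA hy d0 hd
  obtain ⟨q, a, c⟩ := exists_subset_card_eq (n := L) (s := A.filter fun p : ℕ => ¬ (p : ℤ) ∣ d)
    (by omega)
  exact ⟨q, a.trans (filter_subset _ _), c,
    prod_cop (fun p m => (hA p (mem_filter.1 (a m)).1).1) fun p m => (mem_filter.1 (a m)).2⟩

lemma cls {n y r L : ℕ} {ξ : Pt} {q : Finset ℕ} (hy : 1 < y)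
    (h : ∀ p ∈ q, (p.Prime ∧ y < p) ∧ ¬ (p : ℤ) ∣ ξ.2) (c : q.card = L) {V : Finset Pt}
    (hV : V ⊆ Wc n (y ^ r) ξ q) : Cls n y r L ((∏ p ∈ q, p : ℕ) : ℤ) ξ V where
  sol ζ m := mem_Z.1 (mem_filter.1 (hV m)).1
  dx ζ m j := prod_dvd (fun p m => (h p m).1.1) fun p m' => Int.ModEq.dvd
    (congrFun (congrArg Prod.fst ((mem_filter.1 (hV m)).2 p m')) j).symm
  dw ζ m := prod_dvd (fun p m => (h p m).1.1) fun p m' => Int.ModEq.dvd
    (congrArg Prod.snd ((mem_filter.1 (hV m)).2 p m')).symm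
  big := by exact_mod_cast c ▸ pow_card_le_prod _ _ _ fun p m => (h p m).1.2.le
  cop := prod_cop (fun p m => (h p m).1.1) fun p m e => by
    have hp := Nat.prime_iff_prime_int.1 (h p m).1.1
    rcases hp.dvd_or_dvd e with e | e
    · have := Int.le_of_dvd (by norm_num) (hp.dvd_of_dvd_pow (a := 2) (n := 2) e)
      have := (h p m).1.2
      omega
    · exact (h p m).2 (hp.dvd_of_dvd_pow e)

theorem hyp {r L : ℕ} (h : r ^ 3 < 4 * L ^ 3) (hr : 0 < r) : ∃ K D c : ℕ, L + 1 ≤ K ∧ 1 ≤ D ∧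
    1 ≤ c ∧ ∀ (n y : ℕ) (ξ : Pt) (A : Finset ℕ), 0 < n → c < y → ξ ∈ Z n (y ^ r) →
      (∀ p ∈ A, (p.Prime ∧ y < p) ∧ ¬ (p : ℤ) ∣ ξ.2) → Hyp L K D ξ (Wc n (y ^ r) ξ) A := by
  classical
  have hL : 5 * r ≤ 8 * L := by
    by_contra q
    have := Nat.pow_le_pow_left (not_le.1 q).le 3
    rw [mul_pow, mul_pow] at this
    omega
  obtain ⟨D₁, c, h3⟩ := A3 h hr
  obtain ⟨D, d1, d2⟩ : ∃ D, D₁ ≤ D ∧ 52 ≤ D := ⟨D₁ + 52, by omega, by omega⟩
  obtain ⟨e₂, h2⟩ := height D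
  obtain ⟨e₁, h1⟩ := height (15 * D ^ 2)
  refine ⟨L + r * e₁ + r * e₂ + r + 1, D, c + Nat.factorial 400, by omega, by omega,
    le_add_left (Nat.factorial_pos _), fun n y ξ A hn hy hξ hA => ?_⟩
  have y4 : Nat.factorial 400 < y := lt_of_le_of_lt le_add_self hy
  have y1 : 1 < y := lt_of_le_of_lt (Nat.factorial_pos _) y4
  have s := mem_Z.1 hξ
  have B2 : 2 ≤ y ^ r := Nat.one_lt_pow hr.ne' y1
  have ht : ∀ (H : P) (e : ℕ) (A' : Finset ℕ), A' ⊆ A → L + r * e ≤ A'.card → ∀ j,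
      eval (xq ξ) (pderiv j H) ≠ 0 → ∀ (G : MvPolynomial (Fin 3) ℤ) (c : ℚ), c ≠ 0 →
      map (Int.castRingHom ℚ) G = C c * H →
      (∀ (x : Fin 3 → ℤ) (j : Fin 3), (∀ u, |x u| ≤ (y ^ r : ℕ)) →
        |eval x (pderiv j G)| ≤ ((y ^ r : ℕ) : ℤ) ^ e) →
      ∃ q ⊆ A', q.card = L ∧ IsCoprime (eval ξ.1 (pderiv j G)) ((∏ p ∈ q, p : ℕ) : ℤ) :=
    fun H e A' a c j hj G u u0 hG hb => avoid (fun p m => (hA p (a m)).1) y1 (fun e => by
      have := eval_int (G := pderiv j G) (c := u) (H := pderiv j H)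
        (by rw [← pderiv_map, hG, pderiv_C_mul]) ξ.1
      rw [e] at this
      exact mul_ne_zero u0 hj (by exact_mod_cast this.symm))
      (by rw [pow_mul]; exact_mod_cast hb _ j s.ax) c
  refine ⟨fun q => mem_filter.2 ⟨hξ, fun _ _ => rfl⟩, fun q a k => ?_,
    fun A' a k H iH dH eH ⟨j, hj⟩ => ?_, fun A' a k H i iH d2 dH fH ⟨j, hj⟩ => ?_,
    fun q a k i V hV hz => ?_, fun A' a k U hU => ?_⟩
  · obtain ⟨R, r0, r1, r2⟩ := h3 n y _ ξ _ hn (by omega)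
      (cls y1 (fun p m => hA p (a m)) k Subset.rfl)
    exact ⟨R, r0, r1.trans d1, by simp, r2⟩
  · rcases h2 (y ^ r) {ζ // ζ ∈ Z n (y ^ r) ∧ eval (xq ζ) H = 0} (fun ζ => ζ.1.1) H B2
      (fun ζ => (mem_Z.1 ζ.2.1).ax) iH dH fun ζ => ζ.2.2 with ⟨R, nd, sp, hz⟩ | ⟨G, u, u0, hG, hb⟩
    · obtain ⟨q, b, k'⟩ := exists_subset_card_eq (show L ≤ A'.card by omega)
      exact ⟨q, b, k', R, nd, (totalDegree_le_of_support_subset sp).trans dH,
        fun ζ m e => hz ⟨ζ, (mem_filter.1 m).1, e⟩⟩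
    · obtain ⟨q, b, k', cp⟩ := ht H e₂ A' a (by omega) j hj G u u0 hG hb
      obtain ⟨R, nd, dR, hz⟩ := A2 hn hr hL y4 (cls y1 (fun p m => hA p (a (b m))) k'
        (filter_subset (fun ζ => eval (xq ζ) H = 0) _)) s iH eH
        (fun ζ m => (mem_filter.1 m).2) hG hj cp
      exact ⟨q, b, k', R, nd, dR.trans d2, fun ζ m e => hz ζ (mem_filter.2 ⟨m, e⟩)⟩
  · rcases h1 (y ^ r) {ζ // ζ ∈ Z n (y ^ r) ∧ eval (xq ζ) H = 0} (fun ζ => ζ.1.1) H B2
      (fun ζ => (mem_Z.1 ζ.2.1).ax) iH dH fun ζ => ζ.2.2 with ⟨R, nd, sp, hz⟩ | ⟨G, u, u0, hG, hb⟩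
    · obtain ⟨q, b, k'⟩ := exists_subset_card_eq (show L ≤ A'.card by omega)
      exact ⟨q, b, k', R, nd, (totalDegree_le_of_support_subset sp).trans dH,
        Nat.le_zero.1 (degreeOf_le_iff.2 fun β m => degreeOf_le_iff.1 fH.le β (sp m)),
        fun ζ m e => hz ⟨ζ, (mem_filter.1 m).1, e⟩⟩
    · obtain ⟨q, b, k', cp⟩ := ht H e₁ A' a (by omega) j hj G u u0 hG hb
      obtain ⟨R, nd, dR, fR, hz⟩ := A1 hr hL y4 (cls y1 (fun p m => hA p (a (b m))) k'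
        (filter_subset (fun ζ => eval (xq ζ) H = 0) _)) s iH d2 fH
        (fun ζ m => (mem_filter.1 m).2) hG hj cp
      exact ⟨q, b, k', R, nd, dR.trans (by nlinarith), fR, fun ζ m e => hz ζ (mem_filter.2 ⟨m, e⟩)⟩
  · refine A0 hn hr hL y4 (cls y1 (fun p m => hA p (a m)) k hV) (v := Pi.single i 1) (l := i)
      (by simp) (by simpa using isCoprime_one_left) fun ζ m ζ' m' j => ?_
    by_cases e : j = i
    · rw [e]
    · simp [e, show ζ.1 j = ζ'.1 j from Int.cast_injective (α := ℚ) (hz ζ m ζ' m' j e)]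
  · by_cases hb : ∃ b ∈ Z n (y ^ r), U b ∧ b.1 ≠ ξ.1
    · obtain ⟨b, m, ub, ne⟩ := hb
      obtain ⟨l, hl⟩ := Function.ne_iff.1 ne
      obtain ⟨q, a', k', cp⟩ := avoid (s := r) (L := L) (fun p m => (hA p (a m)).1) y1
        (sub_ne_zero.2 hl) (by
          have := (mem_Z.1 m).bx l
          have := s.bx l
          rw [abs_le]
          omega) (by omega)
      refine ⟨q, a', k', fun V hV hu => A0 hn hr hL y4 (cls y1 (fun p m => hA p (a (a' m))) k' hV)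
        (v := fun j => b.1 j - ξ.1 j) (l := l) (sub_ne_zero.2 hl) cp fun ζ m ζ' m' j => ?_⟩
      have e1 := hU ζ b (hu ζ m) ub j l
      have e2 := hU ζ' b (hu ζ' m') ub j l
      apply Int.cast_injective (α := ℚ)
      simp only [xq] at e1 e2
      push_cast
      linear_combination e1 - e2
    · obtain ⟨q, b, k'⟩ := exists_subset_card_eq (show L ≤ A'.card by omega)
      push Not at hb
      refine ⟨q, b, k', fun V hV hu => (card_le_one.2 fun ζ m ζ' m' => ?_).trans (by norm_num)⟩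
      have z := (mem_filter.1 (hV m)).1
      have z' := (mem_filter.1 (hV m')).1
      exact (mem_Z.1 z).ext (mem_Z.1 z') ((hb ζ z (hu ζ m)).trans (hb ζ' z' (hu ζ' m')).symm)

lemma pool (y : ℕ) (hy : 0 < y) (k : ℕ) : ∃ A : Finset ℕ, A.card = k ∧
    ∀ p ∈ A, (p.Prime ∧ y < p) ∧ p ≤ 2 ^ k * y := by
  induction k with
  | zero => exact ⟨∅, rfl, by simp⟩
  | succ k ih =>
    obtain ⟨A, c, h⟩ := ih
    obtain ⟨p, p1, p2, p3⟩ := Nat.exists_prime_lt_and_le_two_mul (2 ^ k * y) (by positivity)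
    have := Nat.le_mul_of_pos_left y (Nat.two_pow_pos k)
    refine ⟨insert p A, by rw [card_insert_of_notMem fun m => absurd (h p m).2 (by omega), c],
      fun a m => ?_⟩
    rw [pow_succ', mul_assoc]
    rcases mem_insert.1 m with rfl | m
    · exact ⟨⟨p1, by omega⟩, p3⟩
    · exact ⟨(h a m).1, by have := (h a m).2; omega⟩

lemma card_red (n B : ℕ) {p : ℕ} (hp : p.Prime) : ((Z n B).image (red p)).card ≤ 4 * p ^ 3 := by
  classical
  have := Fact.mk hp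
  have p0 : (0 : ℤ) < p := by exact_mod_cast hp.pos
  refine (card_le_mul_card_image_of_maps_to (f := Prod.fst)
    (t := Fintype.piFinset fun _ : Fin 3 => Ico (0 : ℤ) p) (fun a m => ?_) 4
    fun b _ => ?_).trans (by simp)
  · obtain ⟨ξ, -, rfl⟩ := mem_image.1 m
    exact Fintype.mem_piFinset.2 fun j =>
      mem_Ico.2 ⟨Int.emod_nonneg _ p0.ne', Int.emod_lt_of_pos _ p0⟩
  · refine (card_le_card_of_injOn (fun a => (a.2 : ZMod p)) (t := (Polynomial.nthRoots 4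
      ((n : ZMod p) - (b 0 ^ 4 + b 1 ^ 4 + b 2 ^ 4))).toFinset) (fun a m => ?_)
      fun a m a' m' e => ?_).trans
      ((Multiset.toFinset_card_le _).trans (Polynomial.card_nthRoots _ _))
    · obtain ⟨m₁, rfl⟩ := mem_filter.1 (mem_coe.1 m)
      obtain ⟨ξ, m₂, rfl⟩ := mem_image.1 m₁
      have := congrArg (Int.cast (R := ZMod p)) (mem_Z.1 m₂).eq
      push_cast at this
      simp only [mem_coe, Multiset.mem_toFinset, Polynomial.mem_nthRoots (by norm_num : 0 < 4), red,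
        ZMod.intCast_mod]
      linear_combination this
    · obtain ⟨m₁, e1⟩ := mem_filter.1 (mem_coe.1 m)
      obtain ⟨m₂, e2⟩ := mem_filter.1 (mem_coe.1 m')
      obtain ⟨ξ, -, rfl⟩ := mem_image.1 m₁
      obtain ⟨ξ', -, rfl⟩ := mem_image.1 m₂
      refine Prod.ext (e1.trans e2.symm) ?_
      simpa only [red, ZMod.intCast_mod, ZMod.intCast_eq_intCast_iff'] using e

lemma card_le_fib {α β : Type} {s : Finset α} {t : Finset β} {f : α → β} (hf : ∀ a ∈ s, f a ∈ t)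
    (m : ℕ) (h : ∀ a ∈ s, ∃ U : Finset α, U.card ≤ m ∧ ∀ b ∈ s, f b = f a → b ∈ U) :
    s.card ≤ m * t.card := by
  classical
  refine card_le_mul_card_image_of_maps_to hf m fun b _ => ?_
  rcases (s.filter fun a => f a = b).eq_empty_or_nonempty with e | ⟨a, ha⟩
  · simp [e]
  · obtain ⟨U, u1, u2⟩ := h a (mem_filter.1 ha).1
    exact (card_le_card fun c hc => u2 c (mem_filter.1 hc).1
      ((mem_filter.1 hc).2.trans (mem_filter.1 ha).2.symm)).trans u1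

lemma small_union {α : Type} (S : Finset (Finset α)) (M : ℕ) :
    ∃ U : Finset α, U.card ≤ S.card * M ∧ ∀ V ∈ S, V.card ≤ M → V ⊆ U := by
  classical
  refine ⟨(S.filter fun V => V.card ≤ M).biUnion fun V => V, le_trans ?_
    (Nat.mul_le_mul_right M (card_filter_le S fun V => V.card ≤ M)),
    fun V m h a ha => mem_biUnion.2 ⟨V, mem_filter.2 ⟨m, h⟩, ha⟩⟩
  refine card_biUnion_le_card_mul _ _ M fun V m => ?_
  exact (mem_filter.1 m).2

theorem count {r L : ℕ} (h : r ^ 3 < 4 * L ^ 3) (hr : 0 < r) : ∃ C c : ℕ, ∀ n y : ℕ, 0 < n →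
    c < y → (Z n (y ^ r)).card ≤ C * y ^ (3 * (L + 2)) := by
  classical
  obtain ⟨K, D, c, k1, d1, c1, hh⟩ := hyp h hr
  obtain ⟨N, hN⟩ := cover L K k1
  obtain ⟨C, hC⟩ := card_S2 L D (L + 2)
  obtain ⟨M, hM⟩ : ∃ M, M = 28 * (15 * (15 * D ^ 2) ^ 2) ^ 2 := ⟨_, rfl⟩
  refine ⟨2 ^ (N + r) * (C * M * (4 * (2 ^ (N + r)) ^ 3) ^ (L + 2)), c, fun n y hn hy => ?_⟩
  obtain ⟨A, cA, hA⟩ := pool y (by omega) (N + r)
  let T : Finset ℕ → Finset Pt := fun q => (Z n (y ^ r)).filter fun ξ =>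
    ∃ V ∈ S2 L D (Wc n (y ^ r) ξ) q, ξ ∈ V ∧ V.card ≤ M
  have cov : Z n (y ^ r) ⊆ (A.powerset.filter fun q => q.card ≤ L + 2).biUnion T := fun ξ m => by
    have s := mem_Z.1 m
    have g := card_good (fun p m => (hA p m).1) (by omega) s.pos.ne' s.aw
    obtain ⟨q, a, k, r⟩ := hN D ξ _ _ d1 (hh n y ξ (A.filter fun p : ℕ => ¬ (p : ℤ) ∣ ξ.2) hn hy m
      fun p m => ⟨(hA p (mem_filter.1 m).1).1, (mem_filter.1 m).2⟩) (by omega)
    exact mem_biUnion.2 ⟨q, mem_filter.2 ⟨mem_powerset.2 (a.trans (filter_subset _ _)), k⟩,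
      mem_filter.2 ⟨m, hM ▸ r⟩⟩
  refine (card_le_card cov).trans ((card_biUnion_le_card_mul _ _
    (C * M * (4 * (2 ^ (N + r) * y) ^ 3) ^ (L + 2)) fun q m => ?_).trans ?_)
  · obtain ⟨a, k⟩ := mem_filter.1 m
    rw [mem_powerset] at a
    refine (card_le_fib (f := fun ξ p (_ : p ∈ q) => red p ξ)
      (t := q.pi fun p => (Z n (y ^ r)).image (red p))
      (fun ξ m => mem_pi.2 fun p _ => mem_image_of_mem _ (mem_filter.1 m).1) (C * M)
      fun ζ _ => ?_).trans (Nat.mul_le_mul_left _ ?_)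
    · obtain ⟨U, u1, u2⟩ := small_union (S2 L D (Wc n (y ^ r) ζ) q) M
      refine ⟨U, u1.trans (Nat.mul_le_mul_right _ (hC _ q k)), fun ξ m e => ?_⟩
      obtain ⟨V, v1, v2, v3⟩ := (mem_filter.1 m).2
      have e0 : S0 L (Wc n (y ^ r) ξ) q = S0 L (Wc n (y ^ r) ζ) q := image_congr fun q' m' =>
        filter_congr fun η _ => forall₂_congr fun p mp => by
          rw [show red p ξ = red p ζ from congrFun (congrFun e p)
            ((mem_powersetCard.1 (mem_coe.1 m')).1 mp)]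
      rw [S2, S1, e0] at v1
      exact u2 V v1 v3 v2
    · rw [card_pi]
      refine (prod_le_pow_card _ _ (4 * (2 ^ (N + r) * y) ^ 3) fun p m =>
        (card_red _ _ (hA p (a m)).1.1).trans ?_).trans (Nat.pow_le_pow_right ?_ k)
      · exact Nat.mul_le_mul_left _ (Nat.pow_le_pow_left (hA p (a m)).2 _)
      · have : 0 < y := by omega
        positivity
  · rw [mul_assoc (2 ^ _)]
    refine Nat.mul_le_mul ((card_filter_le _ _).trans (by rw [card_powerset, cA])) (le_of_eq ?_)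
    simp only [mul_pow, pow_mul]
    ring

end Pool.Agent.Lib.MP_f03f34_nt
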