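import Pool.Agent.Lib.MP_f03f34_nt.Swap

/-! Every point lies in a small set taken from a list that depends on its class only. -/

namespace Pool.Agent.Lib.MP_f03f34_nt

open Finset MvPolynomial UniqueFactorizationMonoid

structure Hyp (L K D : ℕ) (ξ : Pt) (W : Finset ℕ → Finset Pt) (A : Finset ℕ) : Prop where
  mem : ∀ q, ξ ∈ W q
  t3 : ∀ q ⊆ A, q.card = L → ∃ R, Van D none (W q) R
  t2 : ∀ A' ⊆ A, K ≤ A'.card → ∀ H : P, Irreducible H → H.totalDegree ≤ D → eval (xq ξ) H = 0 →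
    (∃ j, eval (xq ξ) (pderiv j H) ≠ 0) → ∃ q ⊆ A', q.card = L ∧ ∃ R : P, ¬ H ∣ R ∧
      R.totalDegree ≤ D ∧ ∀ ζ ∈ W q, eval (xq ζ) H = 0 → eval (xq ζ) R = 0
  t1 : ∀ A' ⊆ A, K ≤ A'.card → ∀ (H : P) (i : Fin 3), Irreducible H → 2 ≤ H.totalDegree →
    H.totalDegree ≤ 15 * D ^ 2 → degreeOf i H = 0 → (∃ j, eval (xq ξ) (pderiv j H) ≠ 0) →
    ∃ q ⊆ A', q.card = L ∧ ∃ R : P, ¬ H ∣ R ∧ R.totalDegree ≤ 15 * D ^ 2 ∧ degreeOf i R = 0 ∧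
      ∀ ζ ∈ W q, eval (xq ζ) H = 0 → eval (xq ζ) R = 0
  t0 : ∀ q ⊆ A, q.card = L → ∀ i, ∀ V ⊆ W q,
    (∀ ζ ∈ V, ∀ ζ' ∈ V, ∀ j, j ≠ i → xq ζ j = xq ζ' j) → V.card ≤ 28
  tl : ∀ A' ⊆ A, K ≤ A'.card → ∀ U : Pt → Prop, (∀ a b, U a → U b → ∀ j l,
    (xq a j - xq ξ j) * (xq b l - xq ξ l) = (xq a l - xq ξ l) * (xq b j - xq ξ j)) →
    ∃ q ⊆ A', q.card = L ∧ ∀ V ⊆ W q, (∀ a ∈ V, U a) → V.card ≤ 28

def S0 (L : ℕ) (W : Finset ℕ → Finset Pt) (q : Finset ℕ) : Finset (Finset Pt) :=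
  (q.powersetCard L).image W

noncomputable def S1 (L D : ℕ) (W : Finset ℕ → Finset Pt) (q : Finset ℕ) : Finset (Finset Pt) :=
  step D (S0 L W q) (S0 L W q)

noncomputable def S2 (L D : ℕ) (W : Finset ℕ → Finset Pt) (q : Finset ℕ) : Finset (Finset Pt) :=
  step (15 * D ^ 2) (S0 L W q) (S1 L D W q)

variable {L K D : ℕ} {ξ : Pt} {W : Finset ℕ → Finset Pt} {A : Finset ℕ}

lemma mem_S0 {q q' : Finset ℕ} (h : q' ⊆ q) (c : q'.card = L) : W q' ∈ S0 L W q :=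
  mem_image_of_mem _ (mem_powersetCard.2 ⟨h, c⟩)

lemma S1_mono {q q' : Finset ℕ} (h : q' ⊆ q) : S1 L D W q' ⊆ S1 L D W q :=
  have : S0 L W q' ⊆ S0 L W q := image_subset_image (powersetCard_mono h)
  step_mono _ this this

lemma card_S2 (L D k : ℕ) : ∃ C : ℕ, ∀ (W : Finset ℕ → Finset Pt) (q : Finset ℕ), q.card ≤ k →
    (S2 L D W q).card ≤ C := by
  refine ⟨2 ^ k * (2 ^ k * (2 ^ k * 4 * (4 * D)) ^ 3 * 4 * (4 * (15 * D ^ 2))) ^ 3,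
    fun W q h => ?_⟩
  have h0 : (S0 L W q).card ≤ 2 ^ k := card_image_le.trans (by
    rw [card_powersetCard]
    exact (Nat.choose_le_two_pow _ _).trans (Nat.pow_le_pow_right (by norm_num) h))
  have h1 : (S1 L D W q).card ≤ 2 ^ k * (2 ^ k * 4 * (4 * D)) ^ 3 :=
    (card_step _ _ _).trans (by gcongr)
  exact (card_step _ _ _).trans (by gcongr)

def Good (L D : ℕ) (ξ : Pt) (W : Finset ℕ → Finset Pt) (q : Finset ℕ) : Prop :=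
  ∃ V ∈ S1 L D W q, ξ ∈ V ∧ ∀ i, ∃ f, Van (15 * D ^ 2) (some i) V f

theorem Hyp.claimB (h : Hyp L K D ξ W A) (hK : L + 1 ≤ K) {A' : Finset ℕ} (a : A' ⊆ A)
    (c : K ≤ A'.card) : ∃ q ⊆ A', q.card = L + 1 ∧ Good L D ξ W q := by
  have hv : ∀ q ⊆ A', q.card = L → Van D none (W q) (van D none (W q)) := fun q a' c' =>
    van_spec (h.t3 q (a'.trans a) c')
  have mk : ∀ q₁ q₂, q₁ ⊆ A' → q₂ ⊆ A' → q₁.card = L → q₂.card = L → (q₁ ∪ q₂).card ≤ L + 1 →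
      ∀ f ∈ pf (van D none (W q₁)), ∀ g ∈ pf (van D none (W q₂)), eval (xq ξ) f = 0 →
      eval (xq ξ) g = 0 → ∀ H R : P, Irreducible H → ¬ H ∣ R → H.totalDegree ≤ D →
      R.totalDegree ≤ D → (∀ ζ ∈ zs (W q₁) f g g, eval (xq ζ) H = 0 ∧ eval (xq ζ) R = 0) →
      ∃ q ⊆ A', q.card = L + 1 ∧ Good L D ξ W q := by
    intro q₁ q₂ a₁ a₂ c₁ c₂ c₃ f hf g hg ef eg H R iH nd dH dR hz
    obtain ⟨q, b₁, b₂, b₃⟩ := exists_subsuperset_card_eq (union_subset a₁ a₂) c₃ (hK.trans c)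
    have m₁ := mem_S0 (W := W) (subset_union_left.trans b₁) c₁
    have m₂ := mem_PL (mem_S0 (W := W) (subset_union_right.trans b₁) c₂) hg
    refine ⟨q, b₂, b₃, _, mem_step m₁ (mem_PL m₁ hf) m₂ m₂, mem_filter.2 ⟨h.mem _, ef, eg, eg⟩,
      fun i => ?_⟩
    obtain ⟨E, e0, e1, e2, e3⟩ := elim iH nd dH dR i
    exact ⟨E, e0, e2, fun j hj => Option.some.inj hj ▸ e1, fun ζ m => e3 _ (hz ζ m).1 (hz ζ m).2⟩
  rcases dich (s := L) (A := A') (by omega) (fun q => van D none (W q)) (xq ξ)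
    fun q a' c' => ⟨(hv q a' c').1, (hv q a' c').2.2.2 _ (h.mem q)⟩ with
    ⟨q₁, a₁, q₂, a₂, c₁, c₂, c₃, f, hf, g, hg, ef, eg, nd⟩ | ⟨H, iH, eH, sH, dv⟩
  · exact mk q₁ q₂ a₁ a₂ c₁ c₂ c₃ f (mem_pf hf) g hg ef eg f g (irreducible_of_factor _ hf) nd
      ((pf_le (van_le _ _ _).1 (mem_pf hf)).1.trans (van_le _ _ _).2)
      ((pf_le (van_le _ _ _).1 hg).1.trans (van_le _ _ _).2)
      fun ζ m => ⟨(mem_filter.1 m).2.1, (mem_filter.1 m).2.2.1⟩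
  · obtain ⟨q₀, a₀, c₀⟩ := exists_subset_card_eq (show L ≤ A'.card by omega)
    have dH := (totalDegree_le_of_dvd_of_isDomain (dv q₀ a₀ c₀) (van_le _ _ _).1).trans
      (van_le _ _ _).2
    obtain ⟨q, a₁, c₁, R, nd, dR, hz⟩ := h.t2 A' a c H iH dH eH sH
    obtain ⟨f, hf, e⟩ := same_zero iH (van_le _ _ _).1 (dv q a₁ c₁)
    exact mk q q a₁ a₁ c₁ c₁ (by simp [c₁]) f hf f hf ((e _).2 eH) ((e _).2 eH) H R iH nd dH dR
      fun ζ m => ⟨(e _).1 (mem_filter.1 m).2.1,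
        hz ζ (mem_filter.1 m).1 ((e _).1 (mem_filter.1 m).2.1)⟩

lemma Hyp.cnt (h : Hyp L K D ξ W A) {q : Finset ℕ} (a : q ⊆ A) (c : q.card = L) {V : Finset Pt}
    (hV : V ⊆ W q) {H R : P} {E : ℕ} (hH : Irreducible H) (nd : ¬ H ∣ R) (dH : H.totalDegree ≤ E)
    (dR : R.totalDegree ≤ E) {i : Fin 3} (fH : degreeOf i H = 0) (fR : degreeOf i R = 0)
    (hz : ∀ ζ ∈ V, eval (xq ζ) H = 0 ∧ eval (xq ζ) R = 0) : V.card ≤ 28 * (15 * E ^ 2) ^ 2 := by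
  have k : ∀ u : Fin 2, (V.image fun ζ => xq ζ (i.succAbove u)).card ≤ 15 * E ^ 2 := fun u =>
    card_coord hH nd dH dR (Fin.succAbove_ne i u) fH fR _ fun b hb => by
      obtain ⟨ζ, m, rfl⟩ := mem_image.1 hb
      exact ⟨_, (hz ζ m).1, (hz ζ m).2, rfl⟩
  refine (card_le_mul_card_image_of_maps_to
    (f := fun ζ => (xq ζ (i.succAbove 0), xq ζ (i.succAbove 1)))
    (t := (V.image fun ζ => xq ζ (i.succAbove 0)) ×ˢ (V.image fun ζ => xq ζ (i.succAbove 1)))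
    (fun ζ m => mem_product.2 ⟨mem_image_of_mem _ m, mem_image_of_mem _ m⟩) 28 fun b _ =>
      h.t0 q a c i _ ((filter_subset _ _).trans hV) fun ζ m ζ' m' j hj => ?_).trans ?_
  · obtain ⟨u, rfl⟩ := Fin.exists_succAbove_eq hj
    have := Prod.ext_iff.1 ((mem_filter.1 m).2.trans (mem_filter.1 m').2.symm)
    fin_cases u
    exacts [this.1, this.2]
  · rw [card_product, sq (15 * E ^ 2)]
    exact Nat.mul_le_mul_left _ (Nat.mul_le_mul (k 0) (k 1))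

theorem Hyp.claimC (h : Hyp L K D ξ W A) (hK : L + 1 ≤ K) (hD : 1 ≤ D) {A' : Finset ℕ}
    (a : A' ⊆ A) (c : K ≤ A'.card) (hg : ∀ q ⊆ A', q.card = L + 1 → Good L D ξ W q) :
    ∃ q ⊆ A', q.card ≤ L + 2 ∧ ∃ V ∈ S2 L D W q, ξ ∈ V ∧
      V.card ≤ 28 * (15 * (15 * D ^ 2) ^ 2) ^ 2 := by
  choose! V v1 v2 v3 using hg
  have hv : ∀ i, ∀ q ⊆ A', q.card = L + 1 →
      Van (15 * D ^ 2) (some i) (V q) (van (15 * D ^ 2) (some i) (V q)) := fun i q a' c' =>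
    van_spec (v3 q a' c' i)
  by_contra hn
  have key : ∀ i, ∃ H : P, Irreducible H ∧ eval (xq ξ) H = 0 ∧ H.totalDegree ≤ 1 ∧
      degreeOf i H = 0 ∧ ∀ q ⊆ A', q.card = L + 1 →
        ∃ f ∈ PL (15 * D ^ 2) (S1 L D W q), ∀ p, eval p f = 0 ↔ eval p H = 0 := fun i => by
    rcases dich (s := L + 1) (A := A') (by omega) (fun q => van (15 * D ^ 2) (some i) (V q)) (xq ξ)
      fun q a' c' => ⟨(hv i q a' c').1, (hv i q a' c').2.2.2 _ (v2 q a' c')⟩ with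
      ⟨q₁, a₁, q₂, a₂, c₁, c₂, c₃, f, hf, g, hg, ef, eg, nd⟩ | ⟨H, iH, eH, sH, dv⟩
    · obtain ⟨q₀, a₀, c₀⟩ := exists_subset_card_eq (show L ≤ q₁.card by omega)
      have m := mem_PL (S1_mono (subset_union_right (s₁ := q₁)) (v1 q₂ a₂ c₂)) hg
      have p₁ := pf_le (van_le _ _ _).1 (mem_pf hf)
      have p₂ := pf_le (van_le _ _ _).1 hg
      exact absurd ⟨q₁ ∪ q₂, union_subset a₁ a₂, c₃, _, mem_step
        (mem_S0 (a₀.trans subset_union_left) c₀)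
        (mem_PL (S1_mono subset_union_left (v1 q₁ a₁ c₁)) (mem_pf hf)) m m,
        mem_filter.2 ⟨h.mem _, ef, eg, eg⟩, h.cnt (a₀.trans (a₁.trans a)) c₀ (filter_subset _ _)
          (irreducible_of_factor _ hf) nd (p₁.1.trans (van_le _ _ _).2)
          (p₂.1.trans (van_le _ _ _).2) (i := i)
          (Nat.le_zero.1 ((p₁.2 i).trans ((hv i q₁ a₁ c₁).2.2.1 i rfl).le))
          (Nat.le_zero.1 ((p₂.2 i).trans ((hv i q₂ a₂ c₂).2.2.1 i rfl).le))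
          fun ζ m => ⟨(mem_filter.1 m).2.1, (mem_filter.1 m).2.2.1⟩⟩ hn
    · obtain ⟨q₀, a₀, c₀⟩ := exists_subset_card_eq (show L + 1 ≤ A'.card by omega)
      have dH := (totalDegree_le_of_dvd_of_isDomain (dv q₀ a₀ c₀) (van_le _ _ _).1).trans
        (van_le _ _ _).2
      have fH := Nat.le_zero.1 ((degreeOf_le_of_dvd (dv q₀ a₀ c₀) (van_le _ _ _).1 i).trans
        ((hv i q₀ a₀ c₀).2.2.1 i rfl).le)
      have sz : ∀ q ⊆ A', q.card = L + 1 →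
          ∃ f ∈ PL (15 * D ^ 2) (S1 L D W q), ∀ p, eval p f = 0 ↔ eval p H = 0 := fun q a' c' =>
        (same_zero iH (van_le _ _ _).1 (dv q a' c')).imp fun f hf =>
          ⟨mem_PL (v1 q a' c') hf.1, hf.2⟩
      refine ⟨H, iH, eH, by_contra fun d => hn ?_, fH, sz⟩
      obtain ⟨q, a₁, c₁, R, nd, dR, fR, hz⟩ := h.t1 A' a c H i iH (by omega) dH fH sH
      obtain ⟨q', b₁, b₂, b₃⟩ := exists_subsuperset_card_eq a₁ (c₁.le.trans L.le_succ) (hK.trans c)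
      obtain ⟨f, hf, e⟩ := sz q' b₂ b₃
      exact ⟨q', b₂, by omega, _, mem_step (mem_S0 b₁ c₁) hf hf hf,
        mem_filter.2 ⟨h.mem _, (e _).2 eH, (e _).2 eH, (e _).2 eH⟩,
        h.cnt (a₁.trans a) c₁ (filter_subset _ _) iH nd dH dR fH fR fun ζ m =>
          ⟨(e _).1 (mem_filter.1 m).2.1, hz ζ (mem_filter.1 m).1 ((e _).1 (mem_filter.1 m).2.1)⟩⟩
  choose H iH eH dH fH sz using key
  obtain ⟨q, a₁, c₁, hq⟩ := h.tl A' a c (fun ζ => ∀ i, eval (xq ζ) (H i) = 0)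
    fun u v hu hv j l => by
      obtain ⟨i, i1, i2⟩ : ∃ i : Fin 3, i ≠ j ∧ i ≠ l := by revert j l; decide
      exact cross (iH i) (dH i) i1 i2 (fH i) (eH i) (hu i) (hv i)
  obtain ⟨q', b₁, b₂, b₃⟩ := exists_subsuperset_card_eq a₁ (c₁.le.trans L.le_succ) (hK.trans c)
  choose f hf e using fun i => sz i q' b₂ b₃
  refine hn ⟨q', b₂, by omega, _, mem_step (mem_S0 b₁ c₁) (hf 0) (hf 1) (hf 2),
    mem_filter.2 ⟨h.mem _, (e _ _).2 (eH _), (e _ _).2 (eH _), (e _ _).2 (eH _)⟩,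
    (hq _ (filter_subset _ _) fun ζ m i => (e i _).1 ?_).trans
      (Nat.le_mul_of_pos_right _ (by positivity))⟩
  obtain ⟨-, m0, m1, m2⟩ := mem_filter.1 m
  fin_cases i
  exacts [m0, m1, m2]

theorem cover (L K : ℕ) (hK : L + 1 ≤ K) : ∃ N : ℕ, ∀ (D : ℕ) (ξ : Pt) (W : Finset ℕ → Finset Pt)
    (A : Finset ℕ), 1 ≤ D → Hyp L K D ξ W A → N ≤ A.card → ∃ q ⊆ A, q.card ≤ L + 2 ∧
      ∃ V ∈ S2 L D W q, ξ ∈ V ∧ V.card ≤ 28 * (15 * (15 * D ^ 2) ^ 2) ^ 2 := by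
  obtain ⟨N, hN⟩ := ramF Prop (L + 1) K
  refine ⟨N, fun D ξ W A hD h c => ?_⟩
  obtain ⟨A', a, c', d, hd⟩ := hN ℕ A (Good L D ξ W) c
  obtain ⟨q₀, a₀, c₀, g⟩ := h.claimB hK a c'.ge
  obtain ⟨q, b, r⟩ := h.claimC hK hD a c'.ge fun q a' c'' => by rwa [hd q a' c'', ← hd q₀ a₀ c₀]
  exact ⟨q, b.trans a, r⟩

end Pool.Agent.Lib.MP_f03f34_nt
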