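import Pool.Agent.Lib.MP_f03f34_nt.Quad

/-! Auxiliary forms from the determinant estimate. -/

namespace Pool.Agent.Lib.MP_f03f34_nt

open Finset MvPolynomial

theorem auxf {W ι : Type} [Fintype ι] [Nonempty ι] {m : ℕ} {Q : ℤ} {t : W → Fin m → ℤ}
    (ht : ∀ ξ i, Q ∣ t ξ i) {η : W → Fin 3 → ℤ} {ω : W → ℤ}
    (hη : ∀ j, (fun ξ => η ξ j) ∈ Rp Q t) (hω : ω ∈ Rp Q t) {y r L : ℕ}
    (bη : ∀ ξ j, |η ξ j| ≤ (y ^ r : ℕ)) (bω : ∀ ξ, |ω ξ| ≤ (y ^ r : ℕ)) (hQ : (y : ℤ) ^ L ≤ Q)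
    (α : ι → Fin 3 → ℕ) (e : ι → ℕ) (he : ∀ s, e s < 4)
    (inj : ∀ s s', α s = α s' → e s = e s' → s = s') (κ : ℕ)
    (hs : (Fintype.card ι).factorial < y)
    (hN : r * ∑ s, (∑ j, α s j + e s) < L * (κ * Fintype.card ι - (κ + m).choose (m + 1))) :
    ∃ A : ℕ → P, (∃ u < 4, A u ≠ 0) ∧ (∀ u, ∀ β ∈ (A u).support, ∃ s, α s = β ∧ e s = u) ∧
      ∀ ξ, eval (fun j => (η ξ j : ℚ)) (A 0) + ω ξ * eval (fun j => (η ξ j : ℚ)) (A 1) +
        (ω ξ : ℚ) ^ 2 * eval (fun j => (η ξ j : ℚ)) (A 2) +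
        (ω ξ : ℚ) ^ 3 * eval (fun j => (η ξ j : ℚ)) (A 3) = 0 := by
  classical
  have y1 : 1 ≤ y := by have := Nat.factorial_pos (Fintype.card ι); omega
  obtain ⟨c, c0, c1⟩ := detm ht (f := fun s ξ => (∏ j, η ξ j ^ α s j) * ω ξ ^ e s)
    (fun s => by
      have h := mul_mem (prod_mem (t := univ) fun j _ => pow_mem (hη j) (α s j)) (pow_mem hω (e s))
      refine (congrArg (· ∈ Rp Q t) ?_).mp h
      funext ξ
      simp) (B := y ^ r) (Nat.one_le_pow _ _ y1) (d := fun s => ∑ j, α s j + e s)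
    (fun s ξ => by
      rw [abs_mul, abs_prod, pow_add, ← prod_pow_eq_pow_sum, abs_pow]
      refine mul_le_mul (prod_le_prod (fun _ _ => abs_nonneg _) fun j _ => ?_)
        (pow_le_pow_left₀ (abs_nonneg _) (bω ξ) _) (by positivity) (by positivity)
      rw [abs_pow]
      exact pow_le_pow_left₀ (abs_nonneg _) (bη ξ j) _) κ (by
      refine lt_of_lt_of_le ?_ (pow_le_pow_left₀ (by positivity) hQ _)
      rw [← pow_mul]
      refine lt_of_lt_of_le ?_ (pow_le_pow_right₀ (by exact_mod_cast y1) (Nat.succ_le_of_lt hN))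
      push_cast
      rw [← pow_mul, pow_succ']
      exact mul_lt_mul_of_pos_right (by exact_mod_cast hs) (by positivity))
  let ε : ι → (Fin 3 →₀ ℕ) := fun s => Finsupp.equivFunOnFinite.symm (α s)
  refine ⟨fun u => pol ε fun s => if e s = u then (c s : ℚ) else 0, ?_, fun u β hβ => ?_,
    fun ξ => ?_⟩
  · obtain ⟨s, hs⟩ := Function.ne_iff.1 c0
    refine ⟨e s, he s, fun h => hs ?_⟩
    have := coeff_pol (α := ε) (c := fun s' => if e s' = e s then (c s' : ℚ) else 0) s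
      fun s' h1 h2 => if_neg fun h3 =>
        h2 (inj _ _ (Finsupp.equivFunOnFinite.symm.injective h1) h3)
    beta_reduce at h
    rw [h] at this
    simpa using this.symm
  · obtain ⟨s, rfl, h⟩ := supp_pol hβ
    exact ⟨s, rfl, by_contra fun q => h (if_neg q)⟩
  · have := congrArg (Int.cast (R := ℚ)) (c1 ξ)
    push_cast at this
    simp only [eval_pol, mul_sum, ← sum_add_distrib]
    refine Eq.trans (sum_congr rfl fun s _ => ?_) this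
    have h4 := he s
    obtain h | h | h | h : e s = 0 ∨ e s = 1 ∨ e s = 2 ∨ e s = 3 := by omega
    all_goals simp [h, ε]
    all_goals ring

def fam (k J : ℕ) (p : ℕ → ℕ → ℕ → Prop) [∀ a b c, Decidable (p a b c)] :
    Finset (ℕ × ℕ × ℕ × ℕ) :=
  (range (k + 1) ×ˢ range (k + 1) ×ˢ range (k + 1) ×ˢ range J).filter fun s =>
    s.1 + s.2.1 + s.2.2.1 + s.2.2.2 ≤ k ∧ p s.1 s.2.1 s.2.2.1

def Ok (k J κ m : ℕ) (p : ℕ → ℕ → ℕ → Prop) [∀ a b c, Decidable (p a b c)] : Prop :=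
  0 < (fam k J p).card ∧ (fam k J p).card ≤ 400 ∧
    8 * ∑ s ∈ fam k J p, (s.1 + s.2.1 + s.2.2.1 + s.2.2.2) <
      5 * (κ * (fam k J p).card - (κ + m).choose (m + 1))

instance decOk (k J κ m : ℕ) (p : ℕ → ℕ → ℕ → Prop) [∀ a b c, Decidable (p a b c)] :
    Decidable (Ok k J κ m p) := inferInstanceAs (Decidable (_ ∧ _ ∧ _))

theorem auxs {W : Type} {m : ℕ} {Q : ℤ} {t : W → Fin m → ℤ}
    (ht : ∀ ξ i, Q ∣ t ξ i) {η : W → Fin 3 → ℤ} {ω : W → ℤ}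
    (hη : ∀ j, (fun ξ => η ξ j) ∈ Rp Q t) (hω : ω ∈ Rp Q t) {y r L : ℕ}
    (bη : ∀ ξ j, |η ξ j| ≤ (y ^ r : ℕ)) (bω : ∀ ξ, |ω ξ| ≤ (y ^ r : ℕ)) (hQ : (y : ℤ) ^ L ≤ Q)
    (hr : 0 < r) (hL : 5 * r ≤ 8 * L) (hy : Nat.factorial 400 < y) {k J κ : ℕ} (hJ : J ≤ 4)
    {p : ℕ → ℕ → ℕ → Prop} [∀ a b c, Decidable (p a b c)] (ok : Ok k J κ m p) :
    ∃ A : ℕ → P, (∃ u < 4, A u ≠ 0) ∧ (∀ u, (A u).totalDegree ≤ k) ∧ (∀ u, J ≤ u → A u = 0) ∧
      (∀ u, ∀ β ∈ (A u).support, p (β 0) (β 1) (β 2)) ∧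
      ∀ ξ, eval (fun j => (η ξ j : ℚ)) (A 0) + ω ξ * eval (fun j => (η ξ j : ℚ)) (A 1) +
        (ω ξ : ℚ) ^ 2 * eval (fun j => (η ξ j : ℚ)) (A 2) +
        (ω ξ : ℚ) ^ 3 * eval (fun j => (η ξ j : ℚ)) (A 3) = 0 := by
  obtain ⟨o1, o2, o3⟩ := ok
  have : Nonempty (fam k J p) := (card_pos.1 o1).to_subtype
  have mem : ∀ s : fam k J p, s.1.2.2.2 < J ∧ s.1.1 + s.1.2.1 + s.1.2.2.1 + s.1.2.2.2 ≤ k ∧
      p s.1.1 s.1.2.1 s.1.2.2.1 := fun s => by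
    have := s.2
    simp only [fam, mem_filter, mem_product, mem_range] at this
    exact ⟨this.1.2.2.2, this.2⟩
  obtain ⟨A, a1, a2, a3⟩ := auxf (ι := fam k J p) ht hη hω bη bω hQ
    (fun s => ![s.1.1, s.1.2.1, s.1.2.2.1]) (fun s => s.1.2.2.2)
    (fun s => (mem s).1.trans_le hJ) (fun s s' h1 h2 => Subtype.ext (Prod.ext (congrFun h1 0)
      (Prod.ext (congrFun h1 1) (Prod.ext (congrFun h1 2) h2)))) κ
    (by rw [Fintype.card_coe]; exact (Nat.factorial_le o2).trans_lt hy) (by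
      simp only [Fin.sum_univ_three, Matrix.cons_val, Fintype.card_coe]
      rw [sum_coe_sort (fam k J p) fun s => s.1 + s.2.1 + s.2.2.1 + s.2.2.2]
      generalize κ * (fam k J p).card - (κ + m).choose (m + 1) = N at o3 ⊢
      generalize ∑ s ∈ fam k J p, (s.1 + s.2.1 + s.2.2.1 + s.2.2.2) = S at o3 ⊢
      nlinarith [Nat.mul_le_mul_right N hL, Nat.mul_lt_mul_of_pos_left o3 hr])
  refine ⟨A, a1, fun u => deg_le_of_supp fun β hβ => ?_, fun u hu => ?_, fun u β hβ => ?_, a3⟩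
  · obtain ⟨s, h, -⟩ := a2 u β hβ
    have := (mem s).2.1
    simp only [← h, Fin.sum_univ_three, Matrix.cons_val]
    omega
  · by_contra h
    obtain ⟨β, hβ⟩ := support_nonempty.2 h
    obtain ⟨s, -, h⟩ := a2 u β hβ
    have := (mem s).1
    omega
  · obtain ⟨s, h, -⟩ := a2 u β hβ
    simpa only [← h, Matrix.cons_val] using (mem s).2.2

lemma ok3 : ∀ a < 4, ∀ b < 4, ∀ c < 4, a + b + c = 3 →
    Ok 10 1 17 2 fun x y z => ¬ (a ≤ x ∧ b ≤ y ∧ c ≤ z) := by decide +kernel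

lemma ok2 : ∀ a < 4, ∀ b < 4, ∀ c < 4, a + b + c = 2 →
    Ok 10 2 17 2 fun x y z => ¬ (a ≤ x ∧ b ≤ y ∧ c ≤ z) := by decide +kernel

lemma ok1 : ∀ a < 4, ∀ b < 4, ∀ c < 4, a + b + c = 1 →
    Ok 10 3 17 2 fun x y z => ¬ (a ≤ x ∧ b ≤ y ∧ c ≤ z) := by decide +kernel

lemma okC : ∀ i : Fin 3, ∀ a < 3, ∀ b < 3, ∀ c < 3, a + b + c = 2 → ![a, b, c] i = 0 →
    Ok 3 1 6 1 fun x y z => ¬ (a ≤ x ∧ b ≤ y ∧ c ≤ z) ∧ ![x, y, z] i = 0 := by
  decide +kernel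

lemma okL : ∀ l : Fin 3, Ok 4 2 8 1 fun x y z => ∀ j, j ≠ l → ![x, y, z] j = 0 := by
  decide +kernel

lemma arith3 {r L : ℕ} (h : r ^ 3 < 4 * L ^ 3) (hr : 0 < r) : ∃ k κ : ℕ,
    r * (4 * (k * (k + 3).choose 3 - (k + 3).choose 4) + 6 * (k + 3).choose 3) <
      L * (κ * (4 * (k + 3).choose 3) - (κ + 3).choose 4) := by
  obtain ⟨T, hT⟩ : ∃ T, T = 24 * L ^ 2 + 9 * r ^ 2 + 27 * r + 27 := ⟨_, rfl⟩
  have L0 : 0 < L := Nat.pos_of_ne_zero (by rintro rfl; simp at h)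
  refine ⟨L * T, r * T, ?_⟩
  have c3 : ∀ k : ℕ, 6 * (k + 3).choose 3 = (k + 1) * (k + 2) * (k + 3) := fun k => by
    have := Nat.descFactorial_eq_factorial_mul_choose (k + 3) 3
    simp [Nat.descFactorial, Nat.factorial] at this
    linarith
  have c4 : ∀ k : ℕ, 4 * (k + 3).choose 4 = k * (k + 3).choose 3 := fun k => by
    have := Nat.choose_succ_right_eq (k + 3) 3
    simp at this
    linarith
  have e1 := c3 (L * T)
  have e2 := c4 (L * T)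
  have e3 := c3 (r * T)
  have e4 := c4 (r * T)
  generalize (L * T + 3).choose 3 = a at *
  generalize (L * T + 3).choose 4 = b at *
  generalize (r * T + 3).choose 3 = c at *
  generalize (r * T + 3).choose 4 = d at *
  have T1 : 1 ≤ T := by omega
  have k0 : 0 < L * T := by positivity
  have f1 : (L * T) ^ 3 < 6 * a := by rw [e1]; nlinarith [Nat.zero_le ((L * T) ^ 2)]
  have f2 : 6 * c ≤ (r * T + 3) ^ 3 := by rw [e3]; nlinarith [Nat.zero_le (r * T)]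
  have f3 : (r * T + 3) ^ 3 + 24 * (L * T) ^ 2 ≤ 4 * (L * T) ^ 3 := by
    have g1 : (r ^ 3 + 1) * T ^ 3 ≤ 4 * L ^ 3 * T ^ 3 := Nat.mul_le_mul_right _ h
    have g2 : T ≤ T ^ 2 := by nlinarith
    have g3 : T ^ 3 = (24 * L ^ 2 + 9 * r ^ 2 + 27 * r + 27) * T ^ 2 := by rw [← hT]; ring
    nlinarith [Nat.mul_le_mul_left (27 * r) g2]
  have f4 : L * T * c + 24 * a < 4 * (L * T) * a := by
    obtain ⟨k, hk⟩ : ∃ k, k = L * T := ⟨_, rfl⟩
    rw [← hk] at f1 f3 k0 ⊢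
    have k6 : 6 < k := by
      by_contra q
      have : 4 * k ^ 3 ≤ 24 * k ^ 2 := by nlinarith [Nat.zero_le (k ^ 2)]
      have : 0 < (r * T + 3) ^ 3 := by positivity
      omega
    obtain ⟨j, rfl⟩ : ∃ j, k = j + 7 := ⟨k - 7, by omega⟩
    have g1 : 6 * c ≤ 4 * (j + 7) ^ 2 * (j + 1) := by nlinarith
    have g2 := Nat.mul_le_mul_left (j + 7) g1
    have g3 := Nat.mul_lt_mul_of_pos_right f1 (show 0 < j + 1 by omega)
    nlinarith
  have f5 : r * (4 * (3 * b) + 6 * a) + L * d < L * (r * T * (4 * a)) := by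
    have g := Nat.mul_lt_mul_of_pos_left f4 hr
    have g1 : 4 * (L * d) = r * (L * T * c) := by rw [mul_left_comm, e4]; ring
    have g2 : r * (4 * b) = r * (L * T * a) := by rw [e2]
    nlinarith
  rw [show L * T * a - b = 3 * b by omega, Nat.mul_sub]
  omega

end Pool.Agent.Lib.MP_f03f34_nt
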