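import Pool.Agent.Lib.MP_f03f34_nt.Conic

/-! Norms from the quartic cover `w ^ 4 = n - x ^ 4 - y ^ 4 - z ^ 4`. -/

namespace Pool.Agent.Lib.MP_f03f34_nt

open Finset MvPolynomial

noncomputable def rho (n : ℚ) : P := C n - (X 0 ^ 4 + X 1 ^ 4 + X 2 ^ 4)

lemma ns {U V a : P} (p : Fin 3 → ℚ) (ha : eval p a < 0) (h : U ^ 2 = a * V ^ 2) :
    V = 0 ∧ U = 0 := by
  obtain ⟨t, rfl⟩ := (IsIntegrallyClosed.pow_dvd_pow_iff two_ne_zero).1
    (show V ^ 2 ∣ U ^ 2 from ⟨a, by rw [h, mul_comm]⟩)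
  by_cases hV : V = 0
  · simp [hV]
  · have e : a = t ^ 2 := mul_right_cancel₀ (pow_ne_zero 2 hV) (by linear_combination -h)
    rw [e, map_pow] at ha
    exact absurd ha (not_lt.2 (sq_nonneg _))

lemma neg4 {n a : ℚ} (hn : 0 < n) (ha : a = n + 1) {b c : ℚ} : n - (a ^ 4 + b ^ 4 + c ^ 4) < 0 := by
  subst ha
  nlinarith [sq_nonneg (b ^ 2), sq_nonneg (c ^ 2), pow_pos hn 2, pow_pos hn 3, pow_pos hn 4]

lemma rho_neg {n : ℚ} (hn : 0 < n) {p : Fin 3 → ℚ} {j : Fin 3} (h : p j = n + 1) :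
    eval p (rho n) < 0 := by
  simp only [rho, map_sub, map_add, map_pow, eval_C, eval_X]
  fin_cases j
  · exact neg4 hn h
  · linarith [neg4 hn (a := p 1) h (b := p 0) (c := p 2)]
  · linarith [neg4 hn (a := p 2) h (b := p 0) (c := p 1)]

lemma deg_rho (n : ℚ) : (rho n).totalDegree ≤ 4 :=
  (totalDegree_sub _ _).trans (max_le (by simp) ((totalDegree_add _ _).trans (max_le
    ((totalDegree_add _ _).trans (by simp)) (by simp))))

/-- the norm of `A + w B + w ^ 2 C + w ^ 3 D` -/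
noncomputable def Nm (ρ A B E D : P) : P :=
  (A ^ 2 + ρ * E ^ 2 - 2 * ρ * B * D) ^ 2 - ρ * (2 * A * E - B ^ 2 - ρ * D ^ 2) ^ 2

lemma eval_Nm {ρ A B E D : P} {p : Fin 3 → ℚ} {w : ℚ} (hw : eval p ρ = w ^ 4)
    (h : eval p A + w * eval p B + w ^ 2 * eval p E + w ^ 3 * eval p D = 0) :
    eval p (Nm ρ A B E D) = 0 := by
  have e : eval p A = -(w * eval p B + w ^ 2 * eval p E + w ^ 3 * eval p D) := by linarith
  simp only [Nm, map_sub, map_add, map_pow, map_mul, map_ofNat, hw, e]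
  ring

lemma dle_add {f g : P} {a : ℕ} (hf : f.totalDegree ≤ a) (hg : g.totalDegree ≤ a) :
    (f + g).totalDegree ≤ a := (totalDegree_add _ _).trans (max_le hf hg)

lemma dle_sub {f g : P} {a : ℕ} (hf : f.totalDegree ≤ a) (hg : g.totalDegree ≤ a) :
    (f - g).totalDegree ≤ a := (totalDegree_sub _ _).trans (max_le hf hg)

lemma dle_mul {f g : P} {a b : ℕ} (hf : f.totalDegree ≤ a) (hg : g.totalDegree ≤ b) :
    (f * g).totalDegree ≤ a + b := (totalDegree_mul _ _).trans (add_le_add hf hg)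

lemma dle_pow {f : P} {a : ℕ} (hf : f.totalDegree ≤ a) (k : ℕ) :
    (f ^ k).totalDegree ≤ k * a := (totalDegree_pow _ _).trans (Nat.mul_le_mul_left _ hf)

lemma dle_C (c : ℚ) : (C c : P).totalDegree ≤ 0 := (totalDegree_C c).le

lemma deg_Nm {ρ A B E D : P} {k : ℕ} (hρ : ρ.totalDegree ≤ 4) (hA : A.totalDegree ≤ k)
    (hB : B.totalDegree ≤ k) (hE : E.totalDegree ≤ k) (hD : D.totalDegree ≤ k) :
    (Nm ρ A B E D).totalDegree ≤ 4 * k + 12 := by
  have h2 : (2 : P).totalDegree ≤ 0 := dle_C 2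
  have hU : (A ^ 2 + ρ * E ^ 2 - 2 * ρ * B * D).totalDegree ≤ 2 * k + 4 :=
    dle_sub (dle_add ((dle_pow hA 2).trans (by omega)) ((dle_mul hρ (dle_pow hE 2)).trans (by omega)))
      ((dle_mul (dle_mul (dle_mul h2 hρ) hB) hD).trans (by omega))
  have hV : (2 * A * E - B ^ 2 - ρ * D ^ 2).totalDegree ≤ 2 * k + 4 :=
    dle_sub (dle_sub ((dle_mul (dle_mul h2 hA) hE).trans (by omega))
      ((dle_pow hB 2).trans (by omega))) ((dle_mul hρ (dle_pow hD 2)).trans (by omega))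
  exact dle_sub ((dle_pow hU 2).trans (by omega)) ((dle_mul hρ (dle_pow hV 2)).trans (by omega))

lemma exists_simple {n : ℚ} (hn : 0 < n) : ∃ π s : P, Prime π ∧ rho n = π * s ∧ ¬ π ∣ s := by
  have h0 : rho n ≠ 0 := fun e => by simpa [e] using rho_neg hn (p := fun _ => n + 1) (j := 0) rfl
  obtain ⟨π, h1, s, h2⟩ := WfDvdMonoid.exists_irreducible_factor (a := rho n) (fun hu => by
    obtain ⟨c, -, e⟩ := isUnit_iff_eq_C_of_isReduced.1 hu
    have a1 := rho_neg hn (p := fun _ => n + 1) (j := 0) rfl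
    have a2 := congrArg (eval 0) e
    rw [e] at a1
    simp [rho] at a1 a2
    linarith) h0
  refine ⟨π, s, h1.prime, h2, fun ⟨u, hu⟩ => h1.not_isUnit ?_⟩
  have hx : ∀ j, π ∣ X j := fun j => by
    have e : pderiv j (rho n) = C (-4) * X j ^ 3 := by
      fin_cases j <;> simp [rho, pderiv_X, map_ofNat]
    have d : π ∣ pderiv j (rho n) := by
      rw [h2, hu, ← mul_assoc, Derivation.leibniz, Derivation.leibniz]
      simp only [smul_eq_mul]
      exact ⟨π * pderiv j u + u * (2 * pderiv j π), by ring⟩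
    rw [e, (IsUnit.map C (by norm_num : (-4 : ℚ) ≠ 0).isUnit).dvd_mul_left] at d
    exact h1.prime.dvd_of_dvd_pow d
  refine isUnit_of_dvd_unit (?_ : π ∣ C n) (hn.ne'.isUnit.map C)
  have e : C n = π * s + (X 0 ^ 4 + X 1 ^ 4 + X 2 ^ 4) := by rw [← h2, rho]; ring
  rw [e]
  exact dvd_add (dvd_mul_right _ _) (dvd_add (dvd_add (dvd_pow (hx 0) (by norm_num))
    (dvd_pow (hx 1) (by norm_num))) (dvd_pow (hx 2) (by norm_num)))

theorem normA {n : ℚ} (hn : 0 < n) {A B E D : P} (h : Nm (rho n) A B E D = 0) :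
    A = 0 ∧ B = 0 ∧ E = 0 ∧ D = 0 := by
  obtain ⟨hV, hU⟩ := ns _ (rho_neg hn (p := fun _ => n + 1) (j := 0) rfl) (sub_eq_zero.1 h)
  obtain ⟨π, s, hp, e, hs⟩ := exists_simple hn
  rw [e] at hU hV
  have key : ∀ (k : ℕ) (A B E D : P), A ^ 2 + π * s * E ^ 2 - 2 * (π * s) * B * D = 0 →
      2 * A * E - B ^ 2 - π * s * D ^ 2 = 0 → π ^ k ∣ A ∧ π ^ k ∣ B ∧ π ^ k ∣ E ∧ π ^ k ∣ D := by
    intro k
    induction k with
    | zero => simp
    | succ k ih =>
      intro A B E D hU hV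
      obtain ⟨A, rfl⟩ := hp.dvd_of_dvd_pow (n := 2) (a := A)
        ⟨2 * s * B * D - s * E ^ 2, by linear_combination hU⟩
      obtain ⟨B, rfl⟩ := hp.dvd_of_dvd_pow (n := 2) (a := B)
        ⟨2 * A * E - s * D ^ 2, by linear_combination -hV⟩
      obtain ⟨E, rfl⟩ := hp.dvd_of_dvd_pow (n := 2) (a := E) ((hp.dvd_or_dvd (a := s)
        ⟨2 * s * B * D - A ^ 2, mul_left_cancel₀ hp.ne_zero
          (by linear_combination hU)⟩).resolve_left hs)
      obtain ⟨D, rfl⟩ := hp.dvd_of_dvd_pow (n := 2) (a := D) ((hp.dvd_or_dvd (a := s)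
        ⟨2 * A * E - B ^ 2, mul_left_cancel₀ hp.ne_zero
          (by linear_combination -hV)⟩).resolve_left hs)
      obtain ⟨a, b, c, d⟩ := ih A B E D
        (mul_left_cancel₀ (pow_ne_zero 2 hp.ne_zero) (by linear_combination hU))
        (mul_left_cancel₀ (pow_ne_zero 2 hp.ne_zero) (by linear_combination hV))
      simp only [pow_succ']
      exact ⟨mul_dvd_mul_left _ a, mul_dvd_mul_left _ b, mul_dvd_mul_left _ c, mul_dvd_mul_left _ d⟩
  have z : ∀ f : P, (∀ k : ℕ, π ^ k ∣ f) → f = 0 := fun f hf => by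
    by_contra f0
    obtain ⟨k, hk⟩ := FiniteMultiplicity.of_not_isUnit hp.not_isUnit f0
    exact hk (hf _)
  exact ⟨z _ fun k => (key k _ _ _ _ hU hV).1, z _ fun k => (key k _ _ _ _ hU hV).2.1,
    z _ fun k => (key k _ _ _ _ hU hV).2.2.1, z _ fun k => (key k _ _ _ _ hU hV).2.2.2⟩

lemma dvd_sub_aeval {H : P} {g : Fin 3 → P} (h : ∀ j, H ∣ X j - g j) (f : P) :
    H ∣ f - aeval g f := by
  induction f using MvPolynomial.induction_on with
  | C a => simp
  | add p q hp hq =>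
    have : p + q - aeval g (p + q) = (p - aeval g p) + (q - aeval g q) := by
      simp only [map_add]; ring
    rw [this]; exact dvd_add hp hq
  | mul_X p i hp =>
    have : p * X i - aeval g (p * X i) = (p - aeval g p) * X i + aeval g p * (X i - g i) := by
      simp only [map_mul, aeval_X]; ring
    rw [this]; exact dvd_add (hp.mul_right _) ((h i).mul_left _)

/-- restriction to a plane -/
lemma plane {H : P} {a : ℚ} {b : Fin 3 → ℚ} (hH : H = C a + ∑ j, C (b j) * X j) {i : Fin 3}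
    (hb : b i ≠ 0) : ∃ s : P →ₐ[ℚ] P, (∀ f, s f = 0 ↔ H ∣ f) ∧ (∀ j, j ≠ i → s (X j) = X j) ∧
      ∀ p, eval p H = 0 → ∀ f, eval p (s f) = eval p f := by
  let g : Fin 3 → P := fun j => if j = i then X j - C (b i)⁻¹ * H else X j
  have d : ∀ f, H ∣ f - aeval g f := dvd_sub_aeval fun j => by
    simp only [g]; split_ifs <;> simp
  have e : aeval g H = 0 := by
    have e1 : ∀ j, C (b j) * g j = C (b j) * X j - if j = i then H else 0 := fun j => by
      simp only [g]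
      split_ifs with e
      · rw [mul_sub, ← mul_assoc, ← C_mul, e, mul_inv_cancel₀ hb, C_1, one_mul]
      · simp
    conv_lhs => rw [hH]
    simp only [map_add, map_sum, map_mul, aeval_C, aeval_X, algebraMap_eq, e1, sum_sub_distrib,
      sum_ite_eq', mem_univ, if_true]
    linear_combination -hH
  refine ⟨aeval g, fun f => ⟨fun h => by simpa only [h, sub_zero] using d f, ?_⟩, fun j hj => by simp [g, hj],
    fun p hp f => ?_⟩
  · rintro ⟨r, rfl⟩
    rw [map_mul, e, zero_mul]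
  · obtain ⟨r, hr⟩ := d f
    have := congrArg (eval p) hr
    rw [map_sub, map_mul, hp, zero_mul] at this
    linarith

lemma pderiv_lin (a : ℚ) (b : Fin 3 → ℚ) (i : Fin 3) :
    pderiv i (C a + ∑ j, C (b j) * X j : P) = C (b i) := by
  fin_cases i <;> simp [Fin.sum_univ_three, pderiv_X]

theorem surf1 {n : ℚ} (hn : 0 < n) {H A B E : P} (dH : H.totalDegree ≤ 1) {ξ : Fin 3 → ℚ} {w : ℚ}
    (h0 : eval ξ H = 0) {i : Fin 3} (h1 : eval ξ (pderiv i H) ≠ 0) (hw : eval ξ (rho n) = w ^ 4)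
    (w0 : w ≠ 0) (h : H ∣ Nm (rho n) A B E 0) : H ∣ A ∧ H ∣ B ∧ H ∣ E := by
  obtain ⟨a, b, hH⟩ := repr1 dH
  obtain ⟨s, s1, s2, s3⟩ := plane hH (i := i) (by simpa [hH, pderiv_lin] using h1)
  obtain ⟨j, hj⟩ := exists_ne i
  have e := (s1 _).2 h
  simp only [Nm, map_sub, map_add, map_pow, map_mul, map_ofNat, map_zero] at e
  have hneg : eval (fun _ => n + 1) (s (rho n)) < 0 := by
    have := rho_neg hn (p := fun u => eval (fun _ => n + 1) (s (X u))) (j := j) (by simp [s2 j hj])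
    simpa [rho] using this
  obtain ⟨hV, hU⟩ := ns _ hneg (sub_eq_zero.1 e)
  obtain ⟨e1, e2⟩ := ns (U := s A) (V := s E) (a := -s (rho n)) ξ
    (by rw [map_neg, s3 ξ h0, hw]; simpa using by positivity) (by linear_combination hU)
  refine ⟨(s1 _).1 e2, (s1 _).1 ?_, (s1 _).1 e1⟩
  simpa [e1] using hV

lemma exists_mu {H : P} (h0 : H ≠ 0) {d : ℕ} (hd : d ≤ H.totalDegree) :
    ∃ μ : Fin 3 → ℕ, μ 0 + μ 1 + μ 2 = d ∧ (∀ j, μ j ≤ degreeOf j H) ∧
      ∀ A, H ∣ A → (∀ α ∈ A.support, ¬ (μ 0 ≤ α 0 ∧ μ 1 ≤ α 1 ∧ μ 2 ≤ α 2)) → A = 0 := by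
  obtain ⟨μ, h1, h2⟩ := Finsupp.exists_le_degree_eq (MonomialOrder.degLex.degree H) d
    (by rwa [degree_degLexDegree])
  refine ⟨μ, by rw [← h2, Finsupp.degree_eq_sum, Fin.sum_univ_three], fun j => (h1 j).trans
    (degreeOf_le_iff.1 le_rfl _ (MonomialOrder.degLex.degree_mem_support h0)), ?_⟩
  rintro _ ⟨r, rfl⟩ h
  by_contra e
  have := h _ (MonomialOrder.degLex.degree_mem_support e)
  rw [MonomialOrder.degree_mul h0 (right_ne_zero_of_mul e)] at this
  exact this ⟨(h1 0).trans (by simp), (h1 1).trans (by simp), (h1 2).trans (by simp)⟩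

end Pool.Agent.Lib.MP_f03f34_nt
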