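import Pool.Agent.Lib.MP_f03f34_nt.Norm

/-! On a quadric the quartic form is not a fourth power. -/

namespace Pool.Agent.Lib.MP_f03f34_nt

open Finset MvPolynomial

lemma deg_of_mul {f g : P} {a b : ℕ} (hf : f ≠ 0) (ha : a ≤ f.totalDegree)
    (h : (f * g).totalDegree ≤ a + b) : g.totalDegree ≤ b := by
  by_cases e : g = 0
  · simp [e]
  · rw [totalDegree_mul_of_isDomain hf e] at h
    omega

theorem surf2 {n : ℚ} (hn : 0 < n) {H A B : P} (hH : Irreducible H) (dH : H.totalDegree = 2)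
    {ξ : Fin 3 → ℚ} {w : ℚ} (h0 : eval ξ H = 0) {i : Fin 3} (h1 : eval ξ (pderiv i H) ≠ 0)
    (hw : eval ξ (rho n) = w ^ 4) (w0 : w ≠ 0) (hd : H ∣ Nm (rho n) A B 0 0) : H ∣ B := by
  obtain ⟨c, hc⟩ := repr2 dH.le
  obtain ⟨u, hu⟩ : ∃ u : Fin 3 → P, u = fun j => X j - C (ξ j) := ⟨_, rfl⟩
  obtain ⟨b, hb⟩ : ∃ b : Fin 3 → ℚ, b = ![c 1 + 2 * c 4 * ξ 0 + c 7 * ξ 1 + c 8 * ξ 2,
    c 2 + 2 * c 5 * ξ 1 + c 7 * ξ 0 + c 9 * ξ 2, c 3 + 2 * c 6 * ξ 2 + c 8 * ξ 0 + c 9 * ξ 1] :=
    ⟨_, rfl⟩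
  obtain ⟨l, hl⟩ : ∃ l : P, l = C (-∑ j, b j * ξ j) + ∑ j, C (b j) * X j := ⟨_, rfl⟩
  obtain ⟨h, hh⟩ : ∃ h : P, h = C (c 4) * (u 0 * u 0) + C (c 5) * (u 1 * u 1) +
    C (c 6) * (u 2 * u 2) + C (c 7) * (u 0 * u 1) + C (c 8) * (u 0 * u 2) +
    C (c 9) * (u 1 * u 2) := ⟨_, rfl⟩
  have bi : b i ≠ 0 := by
    refine fun e => h1 (Eq.trans ?_ e)
    rw [hc, hb]
    fin_cases i <;> simp [pderiv_X] <;> ring
  have du : ∀ j, (u j).totalDegree ≤ 1 := fun j => by
    rw [hu]; exact dle_sub (by simp) (by simp)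
  have dh : h.totalDegree ≤ 2 := by
    have q : ∀ k j j', (C (c k) * (u j * u j')).totalDegree ≤ 2 := fun k j j' =>
      dle_mul (dle_C _) (dle_mul (du j) (du j'))
    rw [hh]
    exact dle_add (dle_add (dle_add (dle_add (dle_add (q _ _ _) (q _ _ _)) (q _ _ _)) (q _ _ _))
      (q _ _ _)) (q _ _ _)
  have dl : l.totalDegree ≤ 1 := by
    have q : ∀ j : Fin 3, (C (b j) * X j : P).totalDegree ≤ 1 := fun j =>
      dle_mul (dle_C _) (b := 1) (by simp)
    rw [hl, Fin.sum_univ_three (fun j => (C (b j) * X j : P))]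
    exact dle_add ((dle_C _).trans (by norm_num)) (dle_add (dle_add (q _) (q _)) (q _))
  have dl1 : 1 ≤ l.totalDegree := by
    by_contra e
    have e1 := totalDegree_eq_zero_iff_eq_C.1 (show l.totalDegree = 0 by omega)
    have := pderiv_lin (-∑ j, b j * ξ j) b i
    rw [← hl, e1, pderiv_C] at this
    exact bi (C_eq_zero.1 this.symm)
  have l0 : l ≠ 0 := fun e => by simp [e] at dl1
  let β : P →ₐ[ℚ] Polynomial P :=
    aeval fun j => Polynomial.C (C (ξ j)) + Polynomial.C (u j) * Polynomial.X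
  have βC : ∀ a, β (C a) = Polynomial.C (C a) := fun a => by simp [β]
  have βX : ∀ j, β (X j) = Polynomial.C (C (ξ j)) + Polynomial.C (u j) * Polynomial.X :=
    fun j => by simp [β]
  have ev1 : ∀ f, (β f).eval 1 = f := fun f => by
    induction f using MvPolynomial.induction_on with
    | C a => simp [βC]
    | add p q hp hq => simp [hp, hq]
    | mul_X p j hp => simp [hp, βX, hu]
  have eβ : β H = Polynomial.C l * Polynomial.X + Polynomial.C h * Polynomial.X ^ 2 := by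
    have e0 := congrArg (fun a : ℚ => (Polynomial.C (C a) : Polynomial P)) h0
    rw [hc] at e0 ⊢
    simp only [map_add, map_mul, map_pow, map_zero, eval_C, eval_X] at e0
    simp only [map_add, map_mul, map_pow, βC, βX, hl, hh, hu, hb, Fin.sum_univ_three, map_sub,
      map_neg, Matrix.cons_val, map_ofNat]
    linear_combination e0
  have eH : H = l + h := by simpa [eβ] using (ev1 H).symm
  have Hh : ¬ H ∣ h := fun e => by
    have := totalDegree_le_of_dvd_of_isDomain ((dvd_add_left e).1 (eH ▸ dvd_refl H)) l0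
    omega
  have h0' : h ≠ 0 := fun e => Hh (e ▸ dvd_zero _)
  obtain ⟨s, s1, -, -⟩ := plane hl bi
  have sh : s h ≠ 0 := fun e => by
    obtain ⟨m, hm⟩ := (s1 _).1 e
    rcases hH.isUnit_or_isUnit (a := l) (b := 1 + m) (by rw [eH, hm]; ring) with q | q
    · have := (isUnit_iff_totalDegree_of_isReduced.1 q).2
      omega
    · have := dle_mul dl (isUnit_iff_totalDegree_of_isReduced.1 q).2.le
      rw [show l * (1 + m) = H by rw [eH, hm]; ring] at this
      omega
  let φ := algebraMap P (FractionRing P)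
  have inj : Function.Injective φ := IsFractionRing.injective _ _
  have φh : φ h ≠ 0 := fun e => h0' (inj (by rw [e, map_zero]))
  obtain ⟨θ, hθ⟩ : ∃ θ, θ = φ (-l) / φ h := ⟨_, rfl⟩
  have eθ : φ h * θ = -φ l := by rw [hθ, map_neg]; field_simp
  have ker : ∀ F : Polynomial P, Polynomial.aeval θ F = 0 → H ∣ F.eval 1 := fun F hF => by
    have e := Polynomial.scaleRoots_aeval_eq_zero_of_aeval_div_eq_zero inj (hθ ▸ hF)
      (mem_nonZeroDivisors_of_ne_zero h0')
    rw [Polynomial.aeval_algebraMap_apply, Polynomial.coe_aeval_eq_eval] at e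
    have d := Polynomial.sub_dvd_eval_sub (h * 1) (-l) (F.scaleRoots h)
    rw [Polynomial.scaleRoots_eval_mul, inj (e.trans (map_zero _).symm), sub_zero,
      show h * 1 - -l = H by rw [eH]; ring] at d
    exact (hH.prime.dvd_or_dvd d).resolve_left fun q => Hh (hH.prime.dvd_of_dvd_pow q)
  by_contra hB
  have ψB : Polynomial.aeval θ (β B) ≠ 0 := fun e => hB (by simpa [ev1] using ker _ e)
  have ψH : Polynomial.aeval θ (β H) = 0 := by
    simp only [eβ, map_add, map_mul, map_pow, Polynomial.aeval_C, Polynomial.aeval_X]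
    linear_combination θ * eθ
  obtain ⟨Ψ, hΨ⟩ : ∃ Ψ : P, Ψ = C n * h ^ 4 - ((C (ξ 0) * h - l * u 0) ^ 4 +
    (C (ξ 1) * h - l * u 1) ^ 4 + (C (ξ 2) * h - l * u 2) ^ 4) := ⟨_, rfl⟩
  have φΨ : φ Ψ = φ h ^ 4 * Polynomial.aeval θ (β (rho n)) := by
    have q : ∀ j, φ (C (ξ j)) * φ h - φ l * φ (u j) = φ h * (φ (C (ξ j)) + φ (u j) * θ) :=
      fun j => by linear_combination -φ (u j) * eθ
    simp only [hΨ, rho, map_add, map_sub, map_mul, map_pow, βC, βX, Polynomial.aeval_C,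
      Polynomial.aeval_X, q]
    ring
  have e4 : (φ h * Polynomial.aeval θ (β A) / Polynomial.aeval θ (β B)) ^ 4 = φ Ψ := by
    obtain ⟨r, hr⟩ := hd
    have := congrArg (fun f => Polynomial.aeval θ (β f)) hr
    simp only [Nm, map_add, map_sub, map_mul, map_pow, map_zero, ψH, zero_mul, mul_zero] at this
    rw [φΨ]
    field_simp
    linear_combination this
  obtain ⟨M, hM⟩ := IsIntegrallyClosed.exists_algebraMap_eq_of_isIntegral_pow (R := P)
    (by norm_num : 0 < 4) (e4 ▸ isIntegral_algebraMap)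
  have M4 : M ^ 4 = Ψ := inj (by rw [map_pow, ← e4]; exact congrArg (· ^ 4) hM)
  have dM : M.totalDegree ≤ 2 := by
    have q : ∀ j, ((C (ξ j) * h - l * u j) ^ 4).totalDegree ≤ 8 := fun j =>
      dle_pow (a := 2) (dle_sub (dle_mul (dle_C _) dh) (dle_mul dl (du j))) 4
    have d8 : Ψ.totalDegree ≤ 8 := hΨ ▸ dle_sub (dle_mul (dle_C _) (dle_pow dh 4))
      (dle_add (dle_add (q 0) (q 1)) (q 2))
    by_cases M0 : M = 0
    · simp [M0]
    · have m2 := mul_ne_zero M0 M0
      rw [← M4, show M ^ 4 = M * M * (M * M) by ring, totalDegree_mul_of_isDomain m2 m2,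
        totalDegree_mul_of_isDomain M0 M0] at d8
      omega
  obtain ⟨v, hv⟩ : ∃ v : ℚ, s (C v * h - M) = 0 := by
    have sC : ∀ a, s (C a) = C a := fun a => s.commutes a
    have e := congrArg s (M4.trans hΨ)
    have ew := congrArg (C (σ := Fin 3)) hw
    simp only [rho, map_add, map_sub, map_mul, map_pow, sC, (s1 l).2 dvd_rfl, eval_C,
      eval_X] at e ew
    have e3 : (C w * s h - s M) * ((C (-w) * s h - s M) * (s M ^ 2 + (C w * s h) ^ 2)) = 0 := by
      rw [map_neg]; linear_combination e + s h ^ 4 * ew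
    rcases mul_eq_zero.1 e3 with q | q
    · exact ⟨w, by rw [map_sub, map_mul, sC, q]⟩
    · rcases mul_eq_zero.1 q with q | q
      · exact ⟨-w, by rw [map_sub, map_mul, sC, q]⟩
      · exact absurd (ns (U := s M) (V := C w * s h) (a := -1) 0 (by simp)
          (by linear_combination q)).1 (mul_ne_zero (by simpa using w0) sh)
  obtain ⟨m, hm⟩ := (s1 _).1 hv
  have dm : m.totalDegree ≤ 1 := deg_of_mul l0 dl1
    (hm ▸ dle_sub (a := 2) (dle_mul (a := 0) (dle_C _) dh) dM)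
  obtain ⟨G, hG⟩ := ker (β (rho n) - (Polynomial.C (C v) + Polynomial.C m * Polynomial.X) ^ 4) (by
    refine mul_left_cancel₀ (pow_ne_zero 4 φh) ?_
    have q : φ h * (φ (C v) + φ m * θ) = φ M := by
      have := congrArg φ hm
      simp only [map_sub, map_mul] at this
      linear_combination this + φ m * eθ
    rw [map_sub, mul_sub, ← φΨ, ← M4, map_pow, map_pow, ← mul_pow, ← q]
    simp [φ])
  simp only [Polynomial.eval_sub, ev1, Polynomial.eval_pow, Polynomial.eval_add, Polynomial.eval_C,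
    Polynomial.eval_mul, Polynomial.eval_X, mul_one] at hG
  have de : (C v + m).totalDegree ≤ 1 := dle_add (by simp) dm
  refine no_split hn.ne' dH.le (G := -G) ?_ de (by rw [rho] at hG; linear_combination hG)
  rw [totalDegree_neg]
  exact deg_of_mul hH.ne_zero dH.ge (hG ▸ dle_sub (deg_rho n) (dle_pow de 4))

/-- the three kinds of surfaces -/
theorem surf {n : ℚ} (hn : 0 < n) {H A B E : P} (hH : Irreducible H)
    {ξ : Fin 3 → ℚ} {w : ℚ} (h0 : eval ξ H = 0) {i : Fin 3} (h1 : eval ξ (pderiv i H) ≠ 0)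
    (hw : eval ξ (rho n) = w ^ 4) (w0 : w ≠ 0) (hE : 2 ≤ H.totalDegree → E = 0)
    (hB : 3 ≤ H.totalDegree → B = 0) (hd : H ∣ Nm (rho n) A B E 0) : H ∣ A ∧ H ∣ B ∧ H ∣ E := by
  rcases le_or_gt H.totalDegree 1 with d | d
  · exact surf1 hn d h0 h1 hw w0 hd
  obtain rfl := hE d
  have q : H ∣ B := by
    rcases le_or_gt 3 H.totalDegree with d' | d'
    · simp [hB d']
    · exact surf2 hn hH (by omega) h0 h1 hw w0 hd
  refine ⟨hH.prime.dvd_of_dvd_pow (n := 4) ?_, q, dvd_zero _⟩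
  have := dvd_add hd ((dvd_pow q (by norm_num : 4 ≠ 0)).mul_left (rho n))
  rwa [show Nm (rho n) A B 0 0 + rho n * B ^ 4 = A ^ 4 by rw [Nm]; ring] at this

end Pool.Agent.Lib.MP_f03f34_nt
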