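import Pool.Agent.Lib.MP_f03f34_nt.Cls

/-! Changing the modulus one prime at a time. -/

namespace Pool.Agent.Lib.MP_f03f34_nt

open Finset MvPolynomial UniqueFactorizationMonoid

/-- finite hypergraph Ramsey theorem, one size -/
theorem ramF (κ : Type) [Fintype κ] (k : ℕ) : ∀ m : ℕ, ∃ N : ℕ, ∀ (V : Type) [DecidableEq V]
    (S : Finset V) (χ : Finset V → κ), N ≤ S.card →
    ∃ H ⊆ S, H.card = m ∧ ∃ d, ∀ s ⊆ H, s.card = k → χ s = d := by
  classical
  induction k with
  | zero =>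
    intro m
    refine ⟨m, fun V _ S χ hS => ?_⟩
    obtain ⟨H, h1, h2⟩ := exists_subset_card_eq hS
    exact ⟨H, h1, h2, χ ∅, fun s _ hs => by rw [card_eq_zero.1 hs]⟩
  | succ k ih =>
    have key : ∀ l : ℕ, ∃ N : ℕ, ∀ (V : Type) [DecidableEq V] (S : Finset V) (χ : Finset V → κ),
        N ≤ S.card → ∃ H ⊆ S, H.card = l ∧ ∃ c : V → κ, ∀ s ⊆ H, s.card = k + 1 →
          ∃ x ∈ s, χ s = c x := by
      intro l
      induction l with
      | zero =>
        refine ⟨0, fun V _ S χ _ => ⟨∅, empty_subset _, rfl, fun _ => χ ∅, fun s hs hc => ?_⟩⟩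
        rw [subset_empty.1 hs] at hc
        simp at hc
      | succ l ihl =>
        obtain ⟨N1, h1⟩ := ihl
        obtain ⟨N2, h2⟩ := ih N1
        refine ⟨N2 + 1, fun V _ S χ hS => ?_⟩
        obtain ⟨x, hx⟩ : S.Nonempty := card_pos.1 (by omega)
        obtain ⟨H, a1, a2, d, a3⟩ := h2 V (S.erase x) (fun s => χ (insert x s))
          (by rw [card_erase_of_mem hx]; omega)
        obtain ⟨H', b1, b2, c, b3⟩ := h1 V H χ a2.ge
        have hxH : x ∉ H' := fun k => by simpa using a1 (b1 k)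
        refine ⟨insert x H', insert_subset hx (b1.trans (a1.trans (erase_subset _ _))),
          by rw [card_insert_of_notMem hxH, b2], Function.update c x d, fun s hs hc => ?_⟩
        by_cases hxs : x ∈ s
        · refine ⟨x, hxs, ?_⟩
          have := a3 (s.erase x) (fun y hy => b1 (by grind)) (by rw [card_erase_of_mem hxs]; omega)
          simp only [insert_erase hxs] at this
          simpa using this
        · obtain ⟨y, hy, e⟩ := b3 s (by grind) hc
          refine ⟨y, hy, ?_⟩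
          rw [Function.update_of_ne (by grind)]
          exact e
    intro m
    obtain ⟨N, hN⟩ := key (Fintype.card κ * m)
    refine ⟨N, fun V _ S χ hS => ?_⟩
    obtain ⟨H, a1, a2, c, a3⟩ := hN V S χ hS
    obtain ⟨d, -, hd⟩ := exists_le_card_fiber_of_mul_le_card_of_maps_to (s := H) (t := univ)
      (f := c) (n := m) (fun _ _ => mem_univ _) ⟨χ ∅, mem_univ _⟩ (by rw [a2, card_univ])
    obtain ⟨H', b1, b2⟩ := exists_subset_card_eq hd
    refine ⟨H', b1.trans ((filter_subset _ _).trans a1), b2, d, fun s hs hc => ?_⟩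
    obtain ⟨x, hx, e⟩ := a3 s (hs.trans (b1.trans (filter_subset _ _))) hc
    rw [e]
    exact (mem_filter.1 (b1 (hs hx))).2

def Van (D : ℕ) (o : Option (Fin 3)) (V : Finset Pt) (f : P) : Prop :=
  f ≠ 0 ∧ f.totalDegree ≤ D ∧ (∀ i, o = some i → degreeOf i f = 0) ∧ ∀ ξ ∈ V, eval (xq ξ) f = 0

open Classical in
noncomputable def van (D : ℕ) (o : Option (Fin 3)) (V : Finset Pt) : P :=
  if h : ∃ f, Van D o V f then h.choose else 1

lemma van_spec {D : ℕ} {o : Option (Fin 3)} {V : Finset Pt} (h : ∃ f, Van D o V f) :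
    Van D o V (van D o V) := by
  rw [van, dif_pos h]; exact h.choose_spec

lemma van_le (D : ℕ) (o : Option (Fin 3)) (V : Finset Pt) :
    van D o V ≠ 0 ∧ (van D o V).totalDegree ≤ D := by
  by_cases h : ∃ f, Van D o V f
  · exact ⟨(van_spec h).1, (van_spec h).2.1⟩
  · simp [van, h]

open Classical in
noncomputable def pf (R : P) : Finset P :=
  (factors R).toFinset ∪ ((factors R).toFinset ×ˢ univ).image fun s => pderiv s.2 s.1

lemma mem_pf {R f : P} (h : f ∈ factors R) : f ∈ pf R := by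
  classical
  exact mem_union_left _ (Multiset.mem_toFinset.2 h)

lemma pderiv_mem_pf {R f : P} (h : f ∈ factors R) (j : Fin 3) : pderiv j f ∈ pf R := by
  classical
  exact mem_union_right _ (mem_image.2 ⟨(f, j), by simpa using h, rfl⟩)

lemma pf_le {R f : P} (h0 : R ≠ 0) (h : f ∈ pf R) :
    f.totalDegree ≤ R.totalDegree ∧ ∀ i, degreeOf i f ≤ degreeOf i R := by
  classical
  have q : ∀ f ∈ factors R, f.totalDegree ≤ R.totalDegree ∧ ∀ i, degreeOf i f ≤ degreeOf i R :=
    fun f h => ⟨totalDegree_le_of_dvd_of_isDomain (dvd_of_mem_factors h) h0,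
      degreeOf_le_of_dvd (dvd_of_mem_factors h) h0⟩
  rcases mem_union.1 h with h | h
  · exact q f (Multiset.mem_toFinset.1 h)
  · obtain ⟨s, hs, rfl⟩ := mem_image.1 h
    have := q s.1 (by simpa using hs)
    exact ⟨(deg_pderiv_le _ _).trans this.1, fun i => (degreeOf_pderiv_le _ _ _).trans (this.2 i)⟩

lemma card_pf {R : P} (h0 : R ≠ 0) : (pf R).card ≤ 4 * R.totalDegree := by
  classical
  have := (Multiset.toFinset_card_le _).trans (card_factors_le h0)
  refine (card_union_le _ _).trans ((add_le_add_right card_image_le _).trans ?_)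
  simp only [card_product, card_univ, Fintype.card_fin]
  omega

open Classical in
noncomputable def PL (D : ℕ) (S : Finset (Finset Pt)) : Finset P :=
  (S ×ˢ univ).biUnion fun s => pf (van D s.2 s.1)

lemma mem_PL {D : ℕ} {S : Finset (Finset Pt)} {V : Finset Pt} (hV : V ∈ S) {o : Option (Fin 3)}
    {f : P} (h : f ∈ pf (van D o V)) : f ∈ PL D S := by
  classical
  exact mem_biUnion.2 ⟨(V, o), by simpa using hV, h⟩

lemma card_PL (D : ℕ) (S : Finset (Finset Pt)) : (PL D S).card ≤ S.card * 4 * (4 * D) := by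
  classical
  refine (card_biUnion_le_card_mul _ _ (4 * D) fun s _ => (card_pf (van_le _ _ _).1).trans
    (Nat.mul_le_mul_left _ (van_le _ _ _).2)).trans ?_
  simp

noncomputable def zs (V : Finset Pt) (f g h : P) : Finset Pt :=
  V.filter fun ξ => eval (xq ξ) f = 0 ∧ eval (xq ξ) g = 0 ∧ eval (xq ξ) h = 0

noncomputable def step (D : ℕ) (S T : Finset (Finset Pt)) : Finset (Finset Pt) :=
  (S ×ˢ PL D T ×ˢ PL D T ×ˢ PL D T).image fun s => zs s.1 s.2.1 s.2.2.1 s.2.2.2

lemma mem_step {D : ℕ} {S T : Finset (Finset Pt)} {V : Finset Pt} (hV : V ∈ S) {f g h : P}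
    (hf : f ∈ PL D T) (hg : g ∈ PL D T) (hh : h ∈ PL D T) : zs V f g h ∈ step D S T :=
  mem_image.2 ⟨(V, f, g, h), by simp [*], rfl⟩

lemma card_step (D : ℕ) (S T : Finset (Finset Pt)) :
    (step D S T).card ≤ S.card * (T.card * 4 * (4 * D)) ^ 3 := by
  refine card_image_le.trans ?_
  simp only [card_product]
  have := Nat.pow_le_pow_left (card_PL D T) 3
  exact Nat.mul_le_mul_left _ (by nlinarith)

lemma step_mono (D : ℕ) {S S' T T' : Finset (Finset Pt)} (h : S ⊆ S') (h' : T ⊆ T') :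
    step D S T ⊆ step D S' T' := by
  classical
  have : PL D T ⊆ PL D T' := biUnion_subset_biUnion_of_subset_left _ (product_subset_product_left h')
  exact image_subset_image (product_subset_product h (product_subset_product this
    (product_subset_product this this)))

lemma swap_set {q q₀ : Finset ℕ} {x z : ℕ} (hz : z ∈ q₀) :
    insert z (q.erase x) \ q₀ = (q \ q₀).erase x ∧ insert z (q.erase x) ∪ q ⊆ insert z q := by
  refine ⟨?_, ?_⟩ <;> grind

theorem dich {A : Finset ℕ} {s : ℕ} (hs : s ≤ A.card) (R : Finset ℕ → P) (p : Fin 3 → ℚ)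
    (h : ∀ q ⊆ A, q.card = s → R q ≠ 0 ∧ eval p (R q) = 0) :
    (∃ q₁ ⊆ A, ∃ q₂ ⊆ A, q₁.card = s ∧ q₂.card = s ∧ (q₁ ∪ q₂).card ≤ s + 1 ∧
      ∃ f ∈ factors (R q₁), ∃ g ∈ pf (R q₂), eval p f = 0 ∧ eval p g = 0 ∧ ¬ f ∣ g) ∨
    ∃ H, Irreducible H ∧ eval p H = 0 ∧ (∃ j, eval p (pderiv j H) ≠ 0) ∧
      ∀ q ⊆ A, q.card = s → H ∣ R q := by
  refine or_iff_not_imp_left.2 fun hn => ?_
  push Not at hn
  obtain ⟨q₀, a₀, c₀⟩ := exists_subset_card_eq hs
  obtain ⟨H, hH, e⟩ := exists_factor (h q₀ a₀ c₀).1 (h q₀ a₀ c₀).2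
  have iH := irreducible_of_factor _ hH
  refine ⟨H, iH, e, (exists_pderiv iH).imp fun j hj e' => hj
    (hn q₀ a₀ q₀ a₀ c₀ c₀ (by simp [c₀]) H hH _ (pderiv_mem_pf hH j) e e'), ?_⟩
  suffices k : ∀ (m : ℕ) (q : Finset ℕ), (q \ q₀).card = m → q ⊆ A → q.card = s → H ∣ R q from
    fun q => k _ q rfl
  intro m
  induction m with
  | zero =>
    intro q h0 _ c
    rw [eq_of_subset_of_card_le (sdiff_eq_empty_iff_subset.1 (card_eq_zero.1 h0)) (by omega)]
    exact dvd_of_mem_factors hH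
  | succ m ih =>
    intro q h0 a c
    obtain ⟨x, hx⟩ : (q \ q₀).Nonempty := card_pos.1 (by omega)
    obtain ⟨z, hz⟩ : (q₀ \ q).Nonempty := card_pos.1 (by rw [card_sdiff_comm (c₀.trans c.symm)]; omega)
    rw [mem_sdiff] at hx hz
    have a' : insert z (q.erase x) ⊆ A := insert_subset (a₀ hz.1) ((erase_subset _ _).trans a)
    have c' : (insert z (q.erase x)).card = s := by
      rw [card_insert_of_notMem (by simp [hz.2]), card_erase_add_one hx.1, c]
    obtain ⟨f, hf, af⟩ := exists_mem_factors_of_dvd (h _ a' c').1 iH (ih _ (by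
      rw [(swap_set hz.1).1, card_erase_of_mem (mem_sdiff.2 hx)]; omega) a' c')
    obtain ⟨g, hg, eg⟩ := exists_factor (h q a c).1 (h q a c).2
    obtain ⟨u, hu⟩ := af.dvd
    refine (af.dvd.trans (hn _ a' q a c' c ((card_le_card (swap_set hz.1).2).trans
      ((card_insert_le _ _).trans_eq (by rw [c]))) f hf g (mem_pf hg) (by simp [hu, e]) eg)).trans
      (dvd_of_mem_factors hg)

lemma same_zero {H R : P} (hH : Irreducible H) (h0 : R ≠ 0) (h : H ∣ R) :
    ∃ f ∈ pf R, ∀ p, eval p f = 0 ↔ eval p H = 0 := by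
  obtain ⟨f, hf, af⟩ := exists_mem_factors_of_dvd h0 hH h
  obtain ⟨u, hu⟩ := af.dvd
  obtain ⟨v, hv⟩ := af.symm.dvd
  exact ⟨f, mem_pf hf, fun p => ⟨fun e => by rw [hv, map_mul, e, zero_mul],
    fun e => by rw [hu, map_mul, e, zero_mul]⟩⟩

lemma cross {H : P} (hH : Irreducible H) (d : H.totalDegree ≤ 1) {i j l : Fin 3} (h1 : i ≠ j)
    (h2 : i ≠ l) (f : degreeOf i H = 0) {p a b : Fin 3 → ℚ} (hp : eval p H = 0)
    (ha : eval a H = 0) (hb : eval b H = 0) :
    (a j - p j) * (b l - p l) = (a l - p l) * (b j - p j) := by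
  obtain ⟨c, u, e⟩ := repr1 d
  have u0 : u i = 0 := by
    have := pderiv_lin c u i
    rw [← e] at this
    by_contra q
    obtain ⟨β, hβ⟩ := support_nonempty.2 (this ▸ C_ne_zero.2 q : pderiv i H ≠ 0)
    simpa using degreeOf_le_iff.1 f.le _ (mem_supp_pderiv hβ)
  obtain ⟨k, hk⟩ := exists_pderiv hH
  have u1 : u k ≠ 0 := fun q => hk (by rw [e, pderiv_lin, q, map_zero]; exact dvd_zero _)
  simp only [e, map_add, map_mul, eval_C, eval_X, Fin.sum_univ_three] at hp ha hb
  refine mul_left_cancel₀ u1 ?_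
  fin_cases i <;> fin_cases j <;> fin_cases l <;> fin_cases k <;>
    simp only [Fin.zero_eta, Fin.mk_one, Fin.reduceFinMk, ne_eq, not_true_eq_false] at * <;>
    grind

end Pool.Agent.Lib.MP_f03f34_nt
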