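import Mathlib

/-! From a polynomial identity of Mahler type to many representations by a diagonal form. -/

namespace Pool.Agent.Lib.MP_f03f34_nt.Wt

open Finset

theorem lin_pos {a b P P' S T : ℤ} (h1 : 0 < a * T + b * P) (h2 : 0 < a * T + b * P')
    (h3 : P ≤ S) (h4 : S ≤ P') : 0 < a * T + b * S := by
  rcases le_total 0 b with h | h <;> nlinarith

theorem fin_sol {k : ℕ} (hk : k ≠ 0) (c : Fin k → ℕ) (hc : ∀ i, 0 < c i) (n : ℕ) :
    Finite {x : Fin k → ℕ // (∀ i, 0 < x i) ∧ ∑ i, c i * x i ^ k = n} := by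
  refine Finite.of_injective (β := Fin k → Fin (n + 1)) (fun x i => ⟨x.1 i, ?_⟩) ?_
  · have h1 := single_le_sum (f := fun i => c i * x.1 i ^ k) (fun _ _ => Nat.zero_le _)
      (mem_univ i)
    have h2 : x.1 i ≤ c i * x.1 i ^ k :=
      (Nat.le_self_pow hk _).trans (Nat.le_mul_of_pos_left _ (hc i))
    have h3 := x.2.2
    omega
  · intro x y e
    exact Subtype.ext (funext fun i => congrArg Fin.val (congrFun e i))

theorem many {j : ℕ} (c : Fin (j + 1) → ℕ) (hc : ∀ i, 0 < c i) (a b : Fin (j + 1) → ℤ)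
    (G p q : ℕ) (hp : 0 < p) (hq : 0 < q) (hb : b 0 ≠ 0)
    (h1 : ∀ i, 0 < a i * q ^ (j + 1) + b i * p ^ (j + 1))
    (h2 : ∀ i, 0 < a i * q ^ (j + 1) + b i * (p + 1) ^ (j + 1))
    (hid : ∀ S T : ℤ, ∑ i, c i * ((if i = 0 then T else S) * (a i * T + b i * S) ^ (j + 1)) =
      G ^ (j + 1) * T ^ (j + 2)) (m : ℕ) (hm : 0 < m) :
    m ≤ Nat.card {x : Fin (j + 1) → ℕ // (∀ i, 0 < x i) ∧
      ∑ i, c i * x i ^ (j + 1) = (G * (q * m) ^ (j + 2)) ^ (j + 1)} := by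
  have := fin_sol j.succ_ne_zero c hc ((G * (q * m) ^ (j + 2)) ^ (j + 1))
  obtain ⟨X, hX⟩ : ∃ X : Fin m → Fin (j + 1) → ℤ, X = fun (t : Fin m) i =>
      (if i = 0 then ((q * m : ℕ) : ℤ) else ((p * m + t : ℕ) : ℤ)) *
        (a i * ((q * m : ℕ) : ℤ) ^ (j + 1) + b i * ((p * m + t : ℕ) : ℤ) ^ (j + 1)) := ⟨_, rfl⟩
  have m0 : (0 : ℤ) < (m : ℤ) ^ (j + 1) := by positivity
  have pos : ∀ t i, 0 < X t i := by
    intro t i
    rw [hX]
    refine mul_pos (by split_ifs <;> positivity)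
      (lin_pos (P := ((p * m : ℕ) : ℤ) ^ (j + 1)) (P' := (((p + 1) * m : ℕ) : ℤ) ^ (j + 1))
        ?_ ?_ ?_ ?_)
    · have := mul_pos (h1 i) m0
      push_cast
      rw [mul_pow, mul_pow]
      linarith
    · have := mul_pos (h2 i) m0
      push_cast
      rw [mul_pow, mul_pow]
      linarith
    · exact pow_le_pow_left₀ (by positivity) (by exact_mod_cast Nat.le_add_right _ _) _
    · refine pow_le_pow_left₀ (by positivity) ?_ _
      have := t.2
      exact_mod_cast (show p * m + t ≤ (p + 1) * m by rw [add_mul]; omega)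
  have cast : ∀ t i, ((X t i).toNat : ℤ) = X t i := fun t i => Int.toNat_of_nonneg (pos t i).le
  have := Nat.card_le_card_of_injective (α := Fin m)
    (β := {x : Fin (j + 1) → ℕ // (∀ i, 0 < x i) ∧
      ∑ i, c i * x i ^ (j + 1) = (G * (q * m) ^ (j + 2)) ^ (j + 1)})
    (fun t => ⟨fun i => (X t i).toNat, fun i => Int.lt_toNat.2 (pos t i), by
      have e := hid (((p * m + t : ℕ) : ℤ) ^ (j + 1)) (((q * m : ℕ) : ℤ) ^ (j + 1))
      zify
      rw [mul_pow, ← pow_mul, mul_comm (j + 2), pow_mul, ← Nat.cast_mul, ← e]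
      refine sum_congr rfl fun i _ => ?_
      rw [cast, hX, mul_pow]
      split_ifs <;> rfl⟩) fun t t' e => by
      have e1 : X t 0 = X t' 0 := by
        have e0 : (X t 0).toNat = (X t' 0).toNat := congrFun (congrArg Subtype.val e) 0
        rw [← cast t, ← cast t', e0]
      rw [hX] at e1
      simp only [if_true] at e1
      have e2 := mul_left_cancel₀ hb (add_left_cancel (mul_left_cancel₀ (by positivity) e1))
      have e3 := (pow_left_inj₀ (by positivity) (by positivity) j.succ_ne_zero).1 e2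
      exact Fin.ext (by omega)
  simpa using this

theorem often {k : ℕ} (hk : 0 < k) (r : ℕ → ℕ) (G q : ℕ) (hG : 0 < G) (hq : 0 < q)
    (hr : ∀ m, 0 < m → m ≤ r ((G * (q * m) ^ (k + 1)) ^ k)) (h : ℝ)
    (hh : h < 1 / (k * (k + 1))) (N : ℕ) : ∃ n ≥ N, (n : ℝ) ^ h < r n := by
  have k0 : (0 : ℝ) < k * (k + 1) := by positivity
  rw [lt_div_iff₀ k0] at hh
  obtain ⟨C, hC⟩ : ∃ C : ℝ, C = ((G * q ^ (k + 1)) ^ k : ℕ) := ⟨_, rfl⟩
  have C0 : 0 < C := by rw [hC]; positivity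
  obtain ⟨M, hM⟩ := Filter.eventually_atTop.1 (((tendsto_rpow_atTop
    (sub_pos.2 hh)).comp tendsto_natCast_atTop_atTop).eventually_gt_atTop (C ^ h))
  obtain ⟨m, hm⟩ : ∃ m, m = M + N + 1 := ⟨_, rfl⟩
  have m0 : 0 < m := by omega
  have m1 : (0 : ℝ) < m := by exact_mod_cast m0
  refine ⟨(G * (q * m) ^ (k + 1)) ^ k, ?_, ?_⟩
  · calc N ≤ m := by omega
      _ ≤ q * m := Nat.le_mul_of_pos_left _ hq
      _ ≤ (q * m) ^ (k + 1) := Nat.le_self_pow k.succ_ne_zero _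
      _ ≤ G * (q * m) ^ (k + 1) := Nat.le_mul_of_pos_left _ hG
      _ ≤ _ := Nat.le_self_pow hk.ne' _
  · have e : (((G * (q * m) ^ (k + 1)) ^ k : ℕ) : ℝ) = C * (m : ℝ) ^ ((k : ℝ) * (k + 1)) := by
      rw [hC, show (k : ℝ) * (k + 1) = (((k + 1) * k : ℕ) : ℝ) by push_cast; ring,
        Real.rpow_natCast]
      push_cast
      rw [pow_mul, ← mul_pow, mul_pow (q : ℝ), mul_assoc]
    rw [e, Real.mul_rpow C0.le (by positivity), ← Real.rpow_mul m1.le]
    calc _ < (m : ℝ) ^ (1 - h * (k * (k + 1))) * (m : ℝ) ^ ((k : ℝ) * (k + 1) * h) :=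
        mul_lt_mul_of_pos_right (hM m (by omega)) (Real.rpow_pos_of_pos m1 _)
      _ = m := by rw [← Real.rpow_add m1, mul_comm h, sub_add_cancel, Real.rpow_one]
      _ ≤ _ := by exact_mod_cast hr m m0

end Pool.Agent.Lib.MP_f03f34_nt.Wt
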